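import Pool.Agent.H499.CF.Stm

/-!
# EXT: the universal cocycle of a generalised matrix algebra
-/

set_option autoImplicit false

namespace Pool.Agent.H962.CF

open Matrix IsLocalRing Pool.Agent.H499.CF

theorem t_EXT : S_EXT := by
  intro T G K J L _ _ _ _ _ _ I d ρ R a hinj hd hG hR i j hij M _ _ _ _ h
  have hji : j ≠ i := Ne.symm hij
  -- the linear map on `a i j`
  obtain ⟨H, hH⟩ : ∃ H : a i j →ₗ[T] M, ∀ y : a i j, H y = h (Submodule.Quotient.mk y) :=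
    ⟨h.comp (Pool.Agent.H499.CF.Rel I a i j).mkQ, fun _ => rfl⟩
  have hsm : ∀ (s : T) (m : M), (Ideal.Quotient.mk I s) • m = s • m := fun s m =>
    algebraMap_smul (T ⧸ I) s m
  have hmul : ∀ (s : T) (y y' : a i j),
      (y' : ∀ κ, L κ) = algebraMap T (∀ κ, L κ) s * (y : ∀ κ, L κ) →
      H y' = (Ideal.Quotient.mk I s) • H y := by
    intro s y y' e
    have h1 : y' = s • y := by
      apply Subtype.ext
      rw [e, Submodule.coe_smul, Algebra.smul_def]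
    rw [h1, map_smul, hsm]
  have hrel : ∀ l, l ≠ i → l ≠ j → ∀ u ∈ a i l, ∀ v ∈ a l j, ∀ y : a i j,
      (y : ∀ κ, L κ) = u * v → H y = 0 := by
    intro l hl1 hl2 u hu v hv y e
    have h1 : y ∈ Pool.Agent.H499.CF.Rel I a i j :=
      Submodule.subset_span (Or.inl ⟨l, hl1, hl2, u, hu, v, hv, e⟩)
    have h2 : (Submodule.Quotient.mk y : a i j ⧸ Pool.Agent.H499.CF.Rel I a i j) = 0 :=
      (Submodule.Quotient.mk_eq_zero _).2 h1
    rw [hH, h2, map_zero]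
  obtain ⟨coc, hcv⟩ : ∃ coc : G → Fin (d i) → Fin (d j) → M, ∀ g p q,
      coc g p q = H ⟨R g ⟨i, p⟩ ⟨j, q⟩, hR.mem g ⟨i, p⟩ ⟨j, q⟩⟩ :=
    ⟨fun g p q => H ⟨R g ⟨i, p⟩ ⟨j, q⟩, hR.mem g ⟨i, p⟩ ⟨j, q⟩⟩, fun _ _ _ => rfl⟩
  have hco : (fun g p q => h (Submodule.Quotient.mk
      ⟨R g ⟨i, p⟩ ⟨j, q⟩, hR.mem g ⟨i, p⟩ ⟨j, q⟩⟩)) = coc := by
    funext g p q
    rw [hcv, hH]
  rw [hco]
  have hT : ∀ (l : J) g (p q : Fin (d l)), ∃ s : T, algebraMap T (∀ κ, L κ) s = R g ⟨l, p⟩ ⟨l, q⟩ ∧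
      Ideal.Quotient.mk I s = ρ l g p q := fun l g p q => by
    obtain ⟨s, hs⟩ := (hG.diag l _).1 (hR.mem g ⟨l, p⟩ ⟨l, q⟩)
    exact ⟨s, hs, hR.diag g l p q s hs⟩
  refine ⟨?_, ?_⟩
  · intro g g'
    funext p q
    have hmem : ∀ x : (Σ l, Fin (d l)), R g ⟨i, p⟩ x * R g' x ⟨j, q⟩ ∈ a i j := fun x =>
      hG.mul i x.1 j _ _ (hR.mem g ⟨i, p⟩ x) (hR.mem g' x ⟨j, q⟩)
    have e1 : (⟨R (g * g') ⟨i, p⟩ ⟨j, q⟩, hR.mem (g * g') ⟨i, p⟩ ⟨j, q⟩⟩ : a i j) =
        ∑ x, (⟨R g ⟨i, p⟩ x * R g' x ⟨j, q⟩, hmem x⟩ : a i j) := by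
      apply Subtype.ext
      rw [Submodule.coe_sum]
      show R (g * g') ⟨i, p⟩ ⟨j, q⟩ = _
      rw [map_mul, Matrix.mul_apply]
    show coc (g * g') p q = (∑ s, ρ i g p s • coc g' s q) + ∑ s, ρ j g' s q • coc g p s
    rw [hcv, e1, map_sum, Fintype.sum_sigma, Finset.sum_eq_add i j hij]
    · congr 1
      · refine Finset.sum_congr rfl fun s _ => ?_
        obtain ⟨t, ht1, ht2⟩ := hT i g p s
        rw [hmul t ⟨R g' ⟨i, s⟩ ⟨j, q⟩, hR.mem g' ⟨i, s⟩ ⟨j, q⟩⟩ _ (by rw [ht1]), ht2, hcv]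
      · refine Finset.sum_congr rfl fun s _ => ?_
        obtain ⟨t, ht1, ht2⟩ := hT j g' s q
        rw [hmul t ⟨R g ⟨i, p⟩ ⟨j, s⟩, hR.mem g ⟨i, p⟩ ⟨j, s⟩⟩ _ (by
          rw [ht1]; exact mul_comm _ _), ht2, hcv]
    · intro l _ hl
      refine Finset.sum_eq_zero fun s _ => ?_
      exact hrel l hl.1 hl.2 _ (hR.mem g ⟨i, p⟩ ⟨l, s⟩) _ (hR.mem g' ⟨l, s⟩ ⟨j, q⟩) _ rfl
    · intro h1
      exact absurd (Finset.mem_univ _) h1
    · intro h1
      exact absurd (Finset.mem_univ _) h1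
  · rintro ⟨x, hx⟩
    have hx' : ∀ g p q, coc g p q = ∑ s, ρ i g p s • x s q - ∑ s, ρ j g s q • x p s := by
      intro g p q
      have := congrFun (congrFun (hx g) p) q
      exact this
    apply LinearMap.ext
    intro y'
    obtain ⟨y, rfl⟩ := Submodule.Quotient.mk_surjective _ y'
    rw [LinearMap.zero_apply, ← hH]
    have p : Fin (d i) := ⟨0, hd i⟩
    have q : Fin (d j) := ⟨0, hd j⟩
    obtain ⟨c, hc⟩ := hR.span ⟨i, p⟩ ⟨j, q⟩ (y : ∀ κ, L κ) y.2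
    have hent : ∀ u v, ∑ g ∈ c.support, c g • R g u v =
        Matrix.single (⟨i, p⟩ : Σ l, Fin (d l)) (⟨j, q⟩ : Σ l, Fin (d l)) (y : ∀ κ, L κ) u v := by
      intro u v
      rw [← hc, Finsupp.sum, Matrix.sum_apply]
      rfl
    -- the diagonal entries
    have hdiag : ∀ (l : J), (l ≠ i ∨ l ≠ j) → ∀ (u v : Fin (d l)),
        ∑ g ∈ c.support, Ideal.Quotient.mk I (c g) * ρ l g u v = 0 := by
      intro l hl u v
      have h1 := hent ⟨l, u⟩ ⟨l, v⟩
      have h2 : Matrix.single (⟨i, p⟩ : Σ l, Fin (d l)) (⟨j, q⟩ : Σ l, Fin (d l)) (y : ∀ κ, L κ)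
          ⟨l, u⟩ ⟨l, v⟩ = 0 := by
        rw [Matrix.single_apply, if_neg]
        rintro ⟨h3, h4⟩
        have h5 : i = l := congrArg Sigma.fst h3
        have h6 : j = l := congrArg Sigma.fst h4
        rcases hl with hl | hl
        · exact hl h5.symm
        · exact hl h6.symm
      rw [h2] at h1
      choose t ht1 ht2 using fun g => hT l g u v
      have h3 : ∑ g ∈ c.support, c g * t g = 0 := by
        apply hinj
        intro κ
        have h4 : algebraMap T (∀ κ, L κ) (∑ g ∈ c.support, c g * t g) = 0 := by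
          rw [map_sum, ← h1]
          refine Finset.sum_congr rfl fun g _ => ?_
          rw [map_mul, ht1, Algebra.smul_def]
        have h5 := congrFun h4 κ
        exact h5
      have h4 := congrArg (Ideal.Quotient.mk I) h3
      rw [map_sum, map_zero] at h4
      rw [← h4]
      refine Finset.sum_congr rfl fun g _ => ?_
      rw [map_mul, ht2]
    -- the off diagonal entry
    have hy : y = ∑ g ∈ c.support, c g •
        (⟨R g ⟨i, p⟩ ⟨j, q⟩, hR.mem g ⟨i, p⟩ ⟨j, q⟩⟩ : a i j) := by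
      apply Subtype.ext
      rw [Submodule.coe_sum]
      have h1 := hent ⟨i, p⟩ ⟨j, q⟩
      rw [Matrix.single_apply, if_pos ⟨rfl, rfl⟩] at h1
      exact h1.symm
    have hyv : H y = ∑ g ∈ c.support, Ideal.Quotient.mk I (c g) • coc g p q := by
      conv_lhs => rw [hy]
      rw [map_sum]
      refine Finset.sum_congr rfl fun g _ => ?_
      rw [map_smul, hsm, hcv]
    have e1 : ∀ g, Ideal.Quotient.mk I (c g) • coc g p q =
        ∑ s, (Ideal.Quotient.mk I (c g) * ρ i g p s) • x s q -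
          ∑ s, (Ideal.Quotient.mk I (c g) * ρ j g s q) • x p s := by
      intro g
      rw [hx', smul_sub, Finset.smul_sum, Finset.smul_sum]
      simp only [mul_smul]
    rw [hyv, Finset.sum_congr rfl fun g _ => e1 g, Finset.sum_sub_distrib, Finset.sum_comm,
      Finset.sum_comm (s := c.support)]
    have e2 : ∀ s, ∑ g ∈ c.support, (Ideal.Quotient.mk I (c g) * ρ i g p s) • x s q = 0 := by
      intro s
      rw [← Finset.sum_smul, hdiag i (Or.inr hij), zero_smul]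
    have e3 : ∀ s, ∑ g ∈ c.support, (Ideal.Quotient.mk I (c g) * ρ j g s q) • x p s = 0 := by
      intro s
      rw [← Finset.sum_smul, hdiag j (Or.inl hji), zero_smul]
    rw [Finset.sum_congr rfl fun s _ => e2 s, Finset.sum_congr rfl fun s _ => e3 s,
      Finset.sum_const_zero, Finset.sum_const_zero, sub_zero]

end Pool.Agent.H962.CF
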