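import Pool.Agent.H499.CF.Stm
import Pool.Agent.H499.CD.LIFT

/-!
# Fitting's lemma in a finite algebra over a complete local ring
-/

set_option autoImplicit false

namespace Pool.Agent.H105.CF.FIT

open IsLocalRing Polynomial
open Pool.Agent.H181.CD

section

variable {T A : Type} [CommRing T] [IsLocalRing T] [Ring A] [Algebra T A]

theorem aeval_V (x : A) {Q : T[X]} (h : Q.map (residue T) = 0) : aeval x Q ∈ V T A 1 := by
  rw [Polynomial.aeval_eq_sum_range]
  refine Submodule.sum_mem _ fun i _ => ?_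
  have h1 : Q.coeff i ∈ maximalIdeal T := by
    have h2 := congrArg (fun q : (ResidueField T)[X] => q.coeff i) h
    simp only [Polynomial.coeff_map, Polynomial.coeff_zero] at h2
    rwa [IsLocalRing.residue_eq_zero_iff] at h2
  rw [V, pow_one]
  exact Submodule.smul_mem_smul h1 Submodule.mem_top

theorem pow_V {a b : A} (h : a - b ∈ V T A 1) (n : ℕ) : a ^ n - b ^ n ∈ V T A 1 := by
  induction n with
  | zero => simp
  | succ n ih =>
    have h1 : a ^ (n + 1) - b ^ (n + 1) = a ^ n * (a - b) + (a ^ n - b ^ n) * b := by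
      rw [pow_succ, pow_succ]
      noncomm_ring
    rw [h1]
    exact Submodule.add_mem _ (V_left _ h) (V_right _ ih)

/-- the first approximation -/
theorem approx [Module.Finite T A] (x : A) : ∃ e y : A, e * e - e ∈ V T A 1 ∧ x * y = e ∧
    Commute x y ∧ ∃ M : ℕ, (x * (1 - e)) ^ M ∈ V T A 1 := by
  obtain ⟨P, hP, hPx⟩ : IsIntegral T x := IsIntegral.of_finite T x
  have hPx' : aeval x P = 0 := hPx
  have hP0 : P.map (residue T) ≠ 0 := (hP.map (residue T)).ne_zero
  obtain ⟨f, hf1, hf2⟩ := Polynomial.exists_eq_pow_rootMultiplicity_mul_and_not_dvd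
    (P.map (residue T)) hP0 0
  rw [map_zero, sub_zero] at hf1 hf2
  obtain ⟨m, hm⟩ : ∃ m, m = Polynomial.rootMultiplicity 0 (P.map (residue T)) := ⟨_, rfl⟩
  rw [← hm] at hf1
  have hcop : IsCoprime (X : (ResidueField T)[X]) f :=
    (Polynomial.irreducible_X.coprime_iff_not_dvd).2 hf2
  obtain ⟨u, v, huv⟩ := hcop.pow_left (m := m + 1)
  obtain ⟨U, hU⟩ := Polynomial.map_surjective (residue T) residue_surjective u
  obtain ⟨W, hW⟩ := Polynomial.map_surjective (residue T) residue_surjective v
  obtain ⟨F, hF⟩ := Polynomial.map_surjective (residue T) residue_surjective f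
  -- two congruences
  have c1 : aeval x (X ^ m * F) ∈ V T A 1 := by
    have h1 : aeval x (X ^ m * F - P) ∈ V T A 1 := by
      refine aeval_V x ?_
      rw [Polynomial.map_sub, Polynomial.map_mul, Polynomial.map_pow, Polynomial.map_X, hF, hf1, sub_self]
    rwa [map_sub, hPx', sub_zero] at h1
  have c2 : aeval x (U * X ^ (m + 1) + W * F - 1) ∈ V T A 1 := by
    refine aeval_V x ?_
    rw [Polynomial.map_sub, Polynomial.map_add, Polynomial.map_mul, Polynomial.map_mul, Polynomial.map_pow,
      Polynomial.map_X, hF, hU, hW, huv, Polynomial.map_one, sub_self]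
  refine ⟨aeval x (U * X ^ (m + 1)), aeval x (U * X ^ m), ?_, ?_, ?_, m + 1, ?_⟩
  · have h1 : aeval x (U * X ^ (m + 1)) * aeval x (U * X ^ (m + 1)) - aeval x (U * X ^ (m + 1)) =
        aeval x (U * X ^ (m + 1)) * aeval x (U * X ^ (m + 1) + W * F - 1) -
          aeval x (U * X * W) * aeval x (X ^ m * F) := by
      rw [← map_mul, ← map_mul, ← map_mul, ← map_sub, ← map_sub]
      congr 1
      ring
    rw [h1]
    exact Submodule.sub_mem _ (V_left _ c2) (V_left _ c1)
  · calc x * aeval x (U * X ^ m) = aeval x (X : T[X]) * aeval x (U * X ^ m) := by rw [aeval_X]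
      _ = aeval x (X * (U * X ^ m)) := (map_mul (aeval x) _ _).symm
      _ = aeval x (U * X ^ (m + 1)) := by
        congr 1
        ring
  · show x * aeval x (U * X ^ m) = aeval x (U * X ^ m) * x
    calc x * aeval x (U * X ^ m) = aeval x (X : T[X]) * aeval x (U * X ^ m) := by rw [aeval_X]
      _ = aeval x (U * X ^ m) * aeval x (X : T[X]) := by rw [← map_mul, ← map_mul, mul_comm]
      _ = aeval x (U * X ^ m) * x := by rw [aeval_X]
  · have h1 : x * (1 - aeval x (U * X ^ (m + 1))) - aeval x (X * (W * F)) ∈ V T A 1 := by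
      have h2 : x * (1 - aeval x (U * X ^ (m + 1))) - aeval x (X * (W * F)) =
          - (x * aeval x (U * X ^ (m + 1) + W * F - 1)) := by
        rw [map_sub, map_add, map_one, map_mul (aeval x) X (W * F), aeval_X]
        noncomm_ring
      rw [h2]
      exact Submodule.neg_mem _ (V_left _ c2)
    have h3 := pow_V h1 (m + 1)
    have h4 : aeval x (X * (W * F)) ^ (m + 1) ∈ V T A 1 := by
      rw [← map_pow]
      have h5 : (X * (W * F)) ^ (m + 1) = (X * W ^ (m + 1) * F ^ m) * (X ^ m * F) := by ring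
      rw [h5, map_mul]
      exact V_left _ c1
    have h6 := Submodule.add_mem _ h3 h4
    rwa [sub_add_cancel] at h6

end

theorem fit : Pool.Agent.H499.CF.S_FIT := by
  intro T A _ _ _ _ _ _ _ x
  obtain ⟨e0, y0, h0, hxy, hc, M, hM⟩ := approx (T := T) x
  have hH : ∀ y : A, (∀ n, y ∈ V T A n) → y = 0 := by
    intro y hy
    refine IsHausdorff.haus' (I := maximalIdeal T) (M := A) y fun n => ?_
    rw [SModEq.sub_mem, sub_zero]
    exact hy n
  let F : ℕ → A := fun n => aeval e0 (NE n)
  have hz1 : (e0 ^ 2 - e0) ^ 1 ∈ V T A 1 := by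
    rw [pow_one, pow_two]
    exact h0
  have hz : ∀ n, ∀ c : A, (e0 ^ 2 - e0) ^ (2 ^ n) * c ∈ V T A n := by
    intro n c
    refine V_right c (V_pow' hz1 ?_)
    rw [one_mul]
    exact Nat.lt_two_pow_self.le
  have hFz : ∀ n, F n ^ 2 - F n ∈ V T A n := by
    intro n
    obtain ⟨c, hc⟩ := NE_idem n
    have h1 := congrArg (aeval e0) hc
    rw [map_sub, map_pow, map_mul, map_pow, map_sub, map_pow, aeval_X] at h1
    show aeval e0 (NE n) ^ 2 - aeval e0 (NE n) ∈ V T A n
    rw [h1]
    exact hz n _
  have hFs : ∀ n, F (n + 1) - F n ∈ V T A n := by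
    intro n
    obtain ⟨c, hc⟩ := NE_step n
    have h1 := congrArg (aeval e0) hc
    rw [map_sub, map_mul, map_pow, map_sub, map_pow, aeval_X] at h1
    show aeval e0 (NE (n + 1)) - aeval e0 (NE n) ∈ V T A n
    rw [h1]
    exact hz n _
  have hF1 : F 1 - e0 ∈ V T A 1 := by
    obtain ⟨c, hc⟩ := NE_step 0
    have h1 := congrArg (aeval e0) hc
    rw [map_sub, map_mul, map_pow, map_sub, map_pow, aeval_X, pow_zero] at h1
    have h2 : (aeval e0) (NE 0) = e0 := by simp only [NE, aeval_X]
    rw [h2] at h1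
    show aeval e0 (NE (0 + 1)) - e0 ∈ V T A 1
    rw [h1]
    exact V_right _ hz1
  obtain ⟨e, he⟩ := limit F hFs
  have hee : e * e = e := by
    refine V_sub hH fun n => ?_
    have h1 : e * e - e = e * (e - F n) + (e - F n) * F n + (F n ^ 2 - F n) - (e - F n) := by
      noncomm_ring
    rw [h1]
    exact Submodule.sub_mem _ (Submodule.add_mem _ (Submodule.add_mem _ (V_left _ (he n)) (V_right _ (he n)))
      (hFz n)) (he n)
  have hcom : ∀ w : A, Commute w e0 → Commute w e := by
    intro w hw
    refine V_sub hH fun n => ?_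
    have h1 : Commute w (F n) := by
      have h2 := Polynomial.aeval_eq_sum_range (p := NE n) e0
      show Commute w (aeval e0 (NE n))
      rw [h2]
      exact Commute.sum_right _ _ _ fun i _ => (hw.pow_right i).smul_right _
    have h3 : w * e - e * w = w * (e - F n) - (e - F n) * w := by
      rw [mul_sub, sub_mul, h1.eq]
      abel
    rw [h3]
    exact Submodule.sub_mem _ (V_left _ (he n)) (V_right _ (he n))
  have hx0 : Commute x e0 := by
    rw [← hxy]
    exact (Commute.refl x).mul_right hc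
  have hy0 : Commute y0 e0 := by
    rw [← hxy]
    exact hc.symm.mul_right (Commute.refl y0)
  have hxe := hcom x hx0
  have hye := hcom y0 hy0
  have hde : e - e0 ∈ V T A 1 := by
    have h1 : e - e0 = (e - F 1) + (F 1 - e0) := by abel
    rw [h1]
    exact Submodule.add_mem _ (he 1) hF1
  obtain ⟨s, hs⟩ := unit_one_sub_V hde
  have hes : Commute e (s : A) := by
    rw [hs]
    exact (Commute.one_right e).sub_right ((Commute.refl e).sub_right (hcom e0 (Commute.refl e0)).symm)
  have hxs : Commute x (s : A) := by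
    rw [hs]
    exact (Commute.one_right x).sub_right (hxe.sub_right hx0)
  have h1 : e0 * e = (s : A) * e := by
    rw [hs, sub_mul, sub_mul, one_mul, hee]
    abel
  have hxyt : x * (y0 * e * (↑s⁻¹ : A)) = e := by
    rw [← mul_assoc, ← mul_assoc, hxy, h1, ← hes.eq, mul_assoc, Units.mul_inv, mul_one]
  refine ⟨e, y0 * e * (↑s⁻¹ : A), hee, hxyt.symm, ?_, hxe.eq, M, ?_⟩
  · have h2 : Commute x (y0 * e * (↑s⁻¹ : A)) := (hc.mul_right hxe).mul_right hxs.units_inv_right
    rw [← h2.eq, hxyt]
  · have h2 : x * (1 - e) - x * (1 - e0) ∈ V T A 1 := by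
      have h3 : x * (1 - e) - x * (1 - e0) = - (x * (e - e0)) := by noncomm_ring
      rw [h3]
      exact Submodule.neg_mem _ (V_left _ hde)
    have h4 := Submodule.add_mem _ (pow_V h2 M) hM
    rw [sub_add_cancel, V, pow_one] at h4
    exact h4

end Pool.Agent.H105.CF.FIT
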