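import Pool.Agent.H499.CF.Stm

/-! Fitting ideals of Selmer groups (helper499), job FITT (helper176); compare job LEN of helper628. -/

set_option autoImplicit false

namespace Pool.Agent.H176.CF.FITT

open Pool.Agent.H499.CF IsLocalRing Module

/-- determinant of a block diagonal matrix with blocks of different sizes -/
theorem det_bd {P : Type} [Fintype P] [DecidableEq P] {Z : P → Type} [∀ x, Fintype (Z x)]
    [∀ x, DecidableEq (Z x)] {R : Type} [CommRing R] (M : ∀ x, Matrix (Z x) (Z x) R) :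
    (Matrix.blockDiagonal' M).det = ∏ x, (M x).det := by
  let _ : LinearOrder P := LinearOrder.lift' (Fintype.equivFin P) (Fintype.equivFin P).injective
  have hT : Matrix.BlockTriangular (Matrix.blockDiagonal' M) Sigma.fst := by
    rintro ⟨i, i'⟩ ⟨j, j'⟩ h
    exact Matrix.blockDiagonal'_apply_ne M i' j' (fun h' => ne_of_lt h h'.symm)
  rw [hT.det_fintype]
  refine Finset.prod_congr rfl (fun k _ => ?_)
  let e : Z k ≃ {z : (Σ x, Z x) // z.1 = k} :=
    { toFun := fun u => ⟨⟨k, u⟩, rfl⟩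
      invFun := fun z => z.2 ▸ z.1.2
      left_inv := fun u => rfl
      right_inv := by
        rintro ⟨⟨x, u⟩, h⟩
        cases h
        rfl }
  rw [← Matrix.det_submatrix_equiv_self e]
  congr 1
  ext u u'
  exact Matrix.blockDiagonal'_apply_eq M k u u'

section

variable {T K J : Type} {L : K → Type} [CommRing T] [∀ κ, Field (L κ)] [∀ κ, Algebra T (L κ)]

/-- the image of `I` -/
def KI (I : Ideal T) : Submodule T (∀ κ, L κ) where
  carrier := {x | ∃ s ∈ I, algebraMap T (∀ κ, L κ) s = x}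
  add_mem' := by
    rintro x y ⟨s, hs, rfl⟩ ⟨s', hs', rfl⟩
    exact ⟨s + s', I.add_mem hs hs', map_add _ _ _⟩
  zero_mem' := ⟨0, I.zero_mem, map_zero _⟩
  smul_mem' := by
    rintro c x ⟨s, hs, rfl⟩
    exact ⟨c * s, I.mul_mem_left c hs, by rw [map_mul, Algebra.smul_def]⟩

theorem KI_mul {I : Ideal T} {x z : ∀ κ, L κ} (hx : ∃ c : T, algebraMap T (∀ κ, L κ) c = x)
    (hz : z ∈ KI I) : x * z ∈ KI I := by
  obtain ⟨c, rfl⟩ := hx
  obtain ⟨s, hs, rfl⟩ := hz
  exact ⟨c * s, I.mul_mem_left c hs, map_mul _ _ _⟩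

/-- the products -/
def MM (I : Ideal T) (a : J → J → Submodule T (∀ κ, L κ)) (i j : J) : Submodule T (∀ κ, L κ) :=
  Submodule.span T ({x | ∃ l, l ≠ i ∧ l ≠ j ∧ ∃ u ∈ a i l, ∃ v ∈ a l j, x = u * v} ∪
    {x | ∃ t ∈ KI I, ∃ y ∈ a i j, x = t * y})

theorem rel_MM {I : Ideal T} {a : J → J → Submodule T (∀ κ, L κ)} {i j : J} {y : a i j}
    (hy : y ∈ Rel I a i j) : (y : ∀ κ, L κ) ∈ MM I a i j := by
  have h : Rel I a i j ≤ (MM I a i j).comap (a i j).subtype := by
    unfold Pool.Agent.H499.CF.Rel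
    rw [Submodule.span_le]
    rintro y (⟨l, h1, h2, u, hu, v, hv, h⟩ | ⟨s, hs, z, rfl⟩)
    · exact Submodule.subset_span (Or.inl ⟨l, h1, h2, u, hu, v, hv, h⟩)
    · refine Submodule.subset_span (Or.inr ⟨algebraMap T (∀ κ, L κ) s, ⟨s, hs, rfl⟩, z, z.2, ?_⟩)
      show s • (z : ∀ κ, L κ) = _
      rw [Algebra.smul_def]
  exact h hy

variable {I : Ideal T} {a : J → J → Submodule T (∀ κ, L κ)}

/-- the types of products -/
def bs (a : J → J → Submodule T (∀ κ, L κ)) (x x' : J × J) : Submodule T (∀ κ, L κ) :=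
  a x.1 x'.1 * a x'.2 x.2

theorem one_mem (hG : GMA I a) (i : J) : (1 : ∀ κ, L κ) ∈ a i i := (hG.diag i 1).2 ⟨1, map_one _⟩

theorem bs_self (hG : GMA I a) (x : J × J) (z : ∀ κ, L κ) :
    z ∈ bs a x x ↔ z ∈ (⊥ : Subalgebra T (∀ κ, L κ)) := by
  constructor
  · intro h
    have h1 : bs a x x ≤ Subalgebra.toSubmodule (⊥ : Subalgebra T (∀ κ, L κ)) := by
      unfold bs
      rw [Submodule.mul_le]
      intro u hu v hv
      exact (⊥ : Subalgebra T (∀ κ, L κ)).mul_mem (Algebra.mem_bot.2 ((hG.diag _ _).1 hu))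
        (Algebra.mem_bot.2 ((hG.diag _ _).1 hv))
    exact h1 h
  · intro h
    have h1 := Submodule.mul_mem_mul ((hG.diag x.1 z).2 (Algebra.mem_bot.1 h)) (one_mem hG x.2)
    rw [mul_one] at h1
    exact h1

theorem a_mul (hG : GMA I a) (i j l : J) : a i j * a j l ≤ a i l := by
  rw [Submodule.mul_le]
  intro u hu v hv
  exact hG.mul _ _ _ _ _ hu hv

theorem bs_mul (hG : GMA I a) (x y z : J × J) : bs a x y * bs a y z ≤ bs a x z := by
  unfold bs
  rw [mul_mul_mul_comm, mul_comm (a y.2 x.2)]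
  exact mul_le_mul' (a_mul hG _ _ _) (a_mul hG _ _ _)

theorem a_ker (hG : GMA I a) {i j : J} (h : i ≠ j) : a i j * a j i ≤ KI I := by
  rw [Submodule.mul_le]
  intro u hu v hv
  obtain ⟨s, hs⟩ := (hG.diag i _).1 (hG.mul _ _ _ _ _ hu hv)
  exact ⟨s, hG.ker i j h u v s hu hv hs, hs⟩

theorem bs_ker (hG : GMA I a) {x y : J × J} (h : x ≠ y) : bs a x y * bs a y x ≤ KI I := by
  unfold bs
  rw [mul_mul_mul_comm, Submodule.mul_le]
  intro u hu v hv
  by_cases h1 : x.1 = y.1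
  · have h2 : y.2 ≠ x.2 := fun h3 => h (Prod.ext h1 h3.symm)
    exact KI_mul ((hG.diag _ _).1 (a_mul hG _ _ _ hu)) (a_ker hG h2 hv)
  · rw [mul_comm]
    exact KI_mul ((hG.diag _ _).1 (a_mul hG _ _ _ hv)) (a_ker hG h1 hu)

open Classical in
/-- the types of the coefficients -/
noncomputable def W (I : Ideal T) (a : J → J → Submodule T (∀ κ, L κ)) (x x' : J × J) :
    Submodule T (∀ κ, L κ) :=
  if x.1 = x'.1 then (if x.2 = x'.2 then KI I else a x'.2 x.2) else (if x.2 = x'.2 then a x.1 x'.1 else ⊥)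

theorem W_le (hG : GMA I a) (x x' : J × J) : W I a x x' ≤ bs a x x' := by
  unfold W
  split_ifs with h1 h2 h2
  · have h3 : x = x' := Prod.ext h1 h2
    subst h3
    rintro z ⟨s, _, hs⟩
    exact (bs_self hG x z).2 (Algebra.mem_bot.2 ⟨s, hs⟩)
  · intro z hz
    have h3 := Submodule.mul_mem_mul (one_mem hG x.1) hz
    rw [one_mul] at h3
    unfold bs
    rw [← h1]
    exact h3
  · intro z hz
    have h3 := Submodule.mul_mem_mul hz (one_mem hG x.2)
    rw [mul_one] at h3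
    unfold bs
    rw [← h2]
    exact h3
  · exact bot_le

/-- the combinations -/
def GG {Y : Type} [Fintype Y] (I : Ideal T) (a : J → J → Submodule T (∀ κ, L κ)) (t : Y → J × J)
    (v : Y → ∀ κ, L κ) (x : J × J) : Submodule T (∀ κ, L κ) where
  carrier := {z | ∃ β : Y → ∀ κ, L κ, (∀ y, β y ∈ W I a x (t y)) ∧ ∑ y, β y * v y = z}
  add_mem' := by
    rintro z z' ⟨β, h, rfl⟩ ⟨β', h', rfl⟩
    refine ⟨β + β', fun y => Submodule.add_mem _ (h y) (h' y), ?_⟩
    rw [← Finset.sum_add_distrib]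
    exact Finset.sum_congr rfl (fun y _ => add_mul _ _ _)
  zero_mem' := ⟨0, fun y => Submodule.zero_mem _, Finset.sum_eq_zero (fun y _ => zero_mul _)⟩
  smul_mem' := by
    rintro c z ⟨β, h, rfl⟩
    refine ⟨c • β, fun y => Submodule.smul_mem _ _ (h y), ?_⟩
    rw [Finset.smul_sum]
    exact Finset.sum_congr rfl (fun y _ => by rw [Pi.smul_apply, smul_mul_assoc])

open Classical in
theorem GG_single {Y : Type} [Fintype Y] {t : Y → J × J} {v : Y → ∀ κ, L κ} {x : J × J} (y : Y)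
    {w : ∀ κ, L κ} (hw : w ∈ W I a x (t y)) : w * v y ∈ GG I a t v x := by
  refine ⟨Pi.single y w, fun y' => ?_, ?_⟩
  · by_cases h : y' = y
    · subst h
      rw [Pi.single_eq_same]
      exact hw
    · rw [Pi.single_eq_of_ne h]
      exact Submodule.zero_mem _
  · rw [Finset.sum_eq_single y]
    · rw [Pi.single_eq_same]
    · intro y' _ h
      rw [Pi.single_eq_of_ne h, zero_mul]
    · intro h
      exact absurd (Finset.mem_univ y) h

theorem span_mul {Z : Type} (y : Z → ∀ κ, L κ) (G : Submodule T (∀ κ, L κ)) (u : ∀ κ, L κ)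
    (h : ∀ p, u * y p ∈ G) (v : ∀ κ, L κ) (hv : v ∈ Submodule.span T (Set.range y)) : u * v ∈ G := by
  have h1 : Submodule.span T (Set.range y) ≤ G.comap (LinearMap.mulLeft T u) := by
    rw [Submodule.span_le]
    rintro _ ⟨p, rfl⟩
    exact h p
  exact h1 hv

/-- a system of generators and relations for a generator of the Fitting ideal, lifted -/
theorem lift_gen (hG : GMA I a) (i j : J) (m : ℕ) (yb : Fin m → a i j ⧸ Rel I a i j)
    (C : Matrix (Fin m) (Fin m) T) (h1 : Submodule.span T (Set.range yb) = ⊤)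
    (h2 : ∀ p, ∑ q, C p q • yb q = 0) :
    ∃ (n : ℕ) (v : Fin m ⊕ Fin n → ∀ κ, L κ), (∀ u, v u ∈ a i j) ∧
      a i j ≤ Submodule.span T (Set.range v) ∧
      ∀ u, ∑ u', (Matrix.fromBlocks C 0 0 (1 : Matrix (Fin n) (Fin n) T)) u u' • v u' ∈ MM I a i j := by
  classical
  obtain ⟨n, s, hs⟩ := Submodule.fg_iff_exists_fin_generating_family.1 (hG.fg i j)
  have hl : ∀ p, ∃ y : a i j, Submodule.Quotient.mk y = yb p :=
    fun p => Submodule.Quotient.mk_surjective _ (yb p)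
  choose y hy using hl
  have hsm : ∀ k, s k ∈ a i j := fun k => by
    rw [← hs]; exact Submodule.subset_span ⟨k, rfl⟩
  have hc : ∀ k, ∃ c : Fin m → T, (⟨s k, hsm k⟩ : a i j) - ∑ p, c p • y p ∈ Rel I a i j := by
    intro k
    have h3 : (Submodule.Quotient.mk (⟨s k, hsm k⟩ : a i j) : a i j ⧸ Rel I a i j) ∈
        Submodule.span T (Set.range yb) := by
      rw [h1]; exact Submodule.mem_top
    obtain ⟨c, hc⟩ := (Submodule.mem_span_range_iff_exists_fun T).1 h3
    refine ⟨c, (Submodule.Quotient.mk_eq_zero _).1 ?_⟩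
    rw [Submodule.Quotient.mk_sub, ← hc, sub_eq_zero]
    rw [← Submodule.mkQ_apply (Rel I a i j) (∑ p, c p • y p), map_sum]
    refine Finset.sum_congr rfl (fun p _ => ?_)
    rw [map_smul, Submodule.mkQ_apply, hy]
  choose c hc using hc
  refine ⟨n, Sum.elim (fun p => (y p : ∀ κ, L κ))
    (fun k => ((⟨s k, hsm k⟩ - ∑ p, c k p • y p : a i j) : ∀ κ, L κ)), ?_, ?_, ?_⟩
  · rintro (p | k)
    · exact (y p).2
    · exact (⟨s k, hsm k⟩ - ∑ p, c k p • y p : a i j).2
  · refine hs.ge.trans ?_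
    rw [Submodule.span_le]
    rintro _ ⟨k, rfl⟩
    have e1 : s k = ((⟨s k, hsm k⟩ - ∑ p, c k p • y p : a i j) : ∀ κ, L κ) +
        ∑ p, c k p • (y p : ∀ κ, L κ) := by
      rw [Submodule.coe_sub, Submodule.coe_sum]
      simp only [Submodule.coe_smul, sub_add_cancel]
    rw [SetLike.mem_coe, e1]
    refine Submodule.add_mem _ (Submodule.subset_span ⟨Sum.inr k, rfl⟩) (Submodule.sum_mem _ fun p _ => ?_)
    exact Submodule.smul_mem _ _ (Submodule.subset_span ⟨Sum.inl p, rfl⟩)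
  · rintro (p | k)
    · rw [Fintype.sum_sum_type]
      simp only [Matrix.fromBlocks_apply₁₁, Matrix.fromBlocks_apply₁₂, Matrix.zero_apply, zero_smul,
        Finset.sum_const_zero, add_zero, Sum.elim_inl]
      have e2 : ∑ q, C p q • y q ∈ Rel I a i j := by
        refine (Submodule.Quotient.mk_eq_zero _).1 ?_
        rw [← h2 p, ← Submodule.mkQ_apply (Rel I a i j) (∑ q, C p q • y q), map_sum]
        refine Finset.sum_congr rfl (fun q _ => ?_)
        rw [map_smul, Submodule.mkQ_apply, hy]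
      have e3 := rel_MM e2
      rw [Submodule.coe_sum] at e3
      simpa only [Submodule.coe_smul] using e3
    · rw [Fintype.sum_sum_type]
      simp only [Matrix.fromBlocks_apply₂₁, Matrix.fromBlocks_apply₂₂, Matrix.zero_apply, zero_smul,
        Finset.sum_const_zero, zero_add, Sum.elim_inr, Matrix.one_apply, ite_smul, one_smul]
      rw [Finset.sum_ite_eq, if_pos (Finset.mem_univ k)]
      exact rel_MM (hc k)

end

open Classical in
theorem fitt (h1 : Pool.Agent.H499.CD.S_PERM) : S_FITT := by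
  intro T K J L _ _ _ _ _ _ _ I a hinj hG S hS hS'
  have hinj' : Function.Injective (algebraMap T (∀ κ, L κ)) := by
    rw [injective_iff_map_eq_zero]
    exact fun x hx => hinj x (fun κ => congrFun hx κ)
  let P : Type := S × (Sᶜ : Finset J)
  -- the product of the ideals is generated by products
  have hprod : ∏ i ∈ S, ∏ j ∈ Sᶜ, Fitt T (a i j ⧸ Pool.Agent.H499.CF.Rel I a i j) =
      ∏ x : P, Fitt T (a x.1 x.2 ⧸ Pool.Agent.H499.CF.Rel I a x.1 x.2) := by
    rw [Fintype.prod_prod_type, ← Finset.prod_coe_sort S]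
    refine Finset.prod_congr rfl (fun i _ => ?_)
    rw [← Finset.prod_coe_sort Sᶜ]
  rw [hprod]
  unfold Fitt
  rw [Ideal.prod_span, Ideal.span_le]
  intro z hz
  obtain ⟨g, hg, rfl⟩ := (Set.mem_finsetProd _ _ _).1 hz
  have hg' : ∀ x : P, ∃ (m : ℕ) (y : Fin m → (a x.1 x.2 ⧸ Pool.Agent.H499.CF.Rel I a x.1 x.2))
      (C : Matrix (Fin m) (Fin m) T), Submodule.span T (Set.range y) = ⊤ ∧
      (∀ p, ∑ q, C p q • y q = 0) ∧ g x = C.det := fun x => hg (Finset.mem_univ x)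
  choose m yb C hyb hrel hdetC using hg'
  have hlift := fun x : P => lift_gen hG x.1 x.2 (m x) (yb x) (C x) (hyb x) (hrel x)
  choose n v0 hv1 hv2 hv3 using hlift
  let Z : P → Type := fun x => Fin (m x) ⊕ Fin (n x)
  let Y : Type := Σ x : P, Z x
  let t : Y → J × J := fun z => ((z.1.1 : J), (z.1.2 : J))
  let v : Y → ∀ κ, L κ := fun z => v0 z.1 z.2
  let C0 : Matrix Y Y T := Matrix.blockDiagonal' (fun x : P =>
    (Matrix.fromBlocks (C x) 0 0 (1 : Matrix (Fin (n x)) (Fin (n x)) T) : Matrix (Z x) (Z x) T))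
  have hC0det : C0.det = ∏ x : P, g x := by
    show (Matrix.blockDiagonal' _).det = _
    rw [det_bd]
    refine Finset.prod_congr rfl (fun x _ => ?_)
    rw [Matrix.det_fromBlocks_zero₂₁, Matrix.det_one, mul_one, hdetC]
  have hC0ne : ∀ z z' : Y, z.1 ≠ z'.1 → C0 z z' = 0 := by
    rintro ⟨x, u⟩ ⟨x', u'⟩ h
    exact Matrix.blockDiagonal'_apply_ne _ u u' h
  have hC0sum : ∀ z : Y, ∑ z', C0 z z' • v z' ∈ MM I a z.1.1 z.1.2 := by
    rintro ⟨x, u⟩
    have e1 : ∑ z' : Y, C0 ⟨x, u⟩ z' • v z' = ∑ u' : Z x, C0 ⟨x, u⟩ ⟨x, u'⟩ • v0 x u' := by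
      rw [Fintype.sum_sigma, Finset.sum_eq_single x]
      · intro x' _ h
        refine Finset.sum_eq_zero (fun u' _ => ?_)
        rw [hC0ne ⟨x, u⟩ ⟨x', u'⟩ (Ne.symm h), zero_smul]
      · intro h
        exact absurd (Finset.mem_univ x) h
    rw [e1]
    have e2 := hv3 x u
    have e3 : ∀ u' : Z x, C0 ⟨x, u⟩ ⟨x, u'⟩ =
        (Matrix.fromBlocks (C x) 0 0 (1 : Matrix (Fin (n x)) (Fin (n x)) T)) u u' :=
      fun u' => Matrix.blockDiagonal'_apply_eq _ x u u'
    rw [Finset.sum_congr rfl (fun u' _ => by rw [e3 u'])]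
    exact e2
  have hGG : ∀ z : Y, ∑ z', C0 z z' • v z' ∈ GG I a t v (t z) := by
    intro z
    have hle : MM I a z.1.1 z.1.2 ≤ GG I a t v (t z) := by
      unfold MM
      rw [Submodule.span_le]
      rintro x (⟨l, hl1, hl2, u, hu, w, hw, rfl⟩ | ⟨s, hs, w, hw, rfl⟩)
      · by_cases hlS : l ∈ S
        · refine span_mul (v0 (⟨l, hlS⟩, z.1.2)) _ u (fun p => ?_) w (hv2 (⟨l, hlS⟩, z.1.2) hw)
          refine GG_single (t := t) (v := v) (⟨(⟨l, hlS⟩, z.1.2), p⟩ : Y) ?_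
          show u ∈ W I a ((z.1.1 : J), (z.1.2 : J)) (l, (z.1.2 : J))
          unfold W
          rw [if_neg (Ne.symm hl1), if_pos rfl]
          exact hu
        · rw [mul_comm]
          refine span_mul (v0 (z.1.1, ⟨l, Finset.mem_compl.2 hlS⟩)) _ w (fun p => ?_) u
            (hv2 (z.1.1, ⟨l, Finset.mem_compl.2 hlS⟩) hu)
          refine GG_single (t := t) (v := v) (⟨(z.1.1, ⟨l, Finset.mem_compl.2 hlS⟩), p⟩ : Y) ?_
          show w ∈ W I a ((z.1.1 : J), (z.1.2 : J)) ((z.1.1 : J), l)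
          unfold W
          rw [if_pos rfl, if_neg (Ne.symm hl2)]
          exact hw
      · refine span_mul (v0 z.1) _ s (fun p => ?_) w (hv2 _ hw)
        refine GG_single (t := t) (v := v) (⟨z.1, p⟩ : Y) ?_
        show s ∈ W I a ((z.1.1 : J), (z.1.2 : J)) ((z.1.1 : J), (z.1.2 : J))
        unfold W
        rw [if_pos rfl, if_pos rfl]
        exact hs
    exact hle (hC0sum z)
  choose β hβ1 hβ2 using hGG
  let D : Matrix Y Y (∀ κ, L κ) := fun z z' => algebraMap T (∀ κ, L κ) (C0 z z') - β z z'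
  let φ : (⊥ : Subalgebra T (∀ κ, L κ)) →ₐ[T] T ⧸ I :=
    (Ideal.Quotient.mkₐ T I).comp (Algebra.botEquivOfInjective hinj').toAlgHom
  have hφ : ∀ (s : T) (h : algebraMap T (∀ κ, L κ) s ∈ (⊥ : Subalgebra T (∀ κ, L κ))),
      φ ⟨algebraMap T (∀ κ, L κ) s, h⟩ = Ideal.Quotient.mk I s := by
    intro s h
    have e1 : (⟨algebraMap T (∀ κ, L κ) s, h⟩ : (⊥ : Subalgebra T (∀ κ, L κ))) =
        algebraMap T (⊥ : Subalgebra T (∀ κ, L κ)) s := rfl
    rw [e1, AlgHom.commutes]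
    rfl
  let D' : Matrix Y Y (T ⧸ I) := C0.map (Ideal.Quotient.mk I)
  have htne : ∀ z z' : Y, t z ≠ t z' → z.1 ≠ z'.1 := by
    intro z z' h h'
    apply h
    show ((z.1.1 : J), (z.1.2 : J)) = ((z'.1.1 : J), (z'.1.2 : J))
    rw [h']
  have hDb : ∀ z z', D z z' ∈ (bs a (t z) (t z') : Set (∀ κ, L κ)) := by
    intro z z'
    refine Submodule.sub_mem _ ?_ (W_le hG _ _ (hβ1 z z'))
    by_cases h : t z = t z'
    · rw [h]
      exact (bs_self hG _ _).2 (Algebra.mem_bot.2 ⟨_, rfl⟩)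
    · rw [hC0ne z z' (htne z z' h), map_zero]
      exact Submodule.zero_mem _
  have hH5 : ∀ z z' (h : D z z' ∈ (⊥ : Subalgebra T (∀ κ, L κ))), t z = t z' →
      φ ⟨D z z', h⟩ = D' z z' := by
    intro z z' h htt
    have hb := hβ1 z z'
    rw [← htt] at hb
    unfold W at hb
    rw [if_pos rfl, if_pos rfl] at hb
    obtain ⟨s, hs, hsβ⟩ := hb
    have e1 : D z z' = algebraMap T (∀ κ, L κ) (C0 z z' - s) := by
      rw [map_sub, hsβ]
    have e2 : (⟨D z z', h⟩ : (⊥ : Subalgebra T (∀ κ, L κ))) =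
        ⟨algebraMap T (∀ κ, L κ) (C0 z z' - s), e1 ▸ h⟩ := Subtype.ext e1
    rw [e2, hφ, map_sub, Ideal.Quotient.eq_zero_iff_mem.2 hs, sub_zero]
    rfl
  obtain ⟨hdT, hdet⟩ := h1 T (∀ κ, L κ) (T ⧸ I) Y (J × J) ⊥ φ
    (fun x x' => (bs a x x' : Set (∀ κ, L κ))) t D D'
    (fun x z => bs_self hG x z)
    (fun x y z u w hu hw => bs_mul hG x y z (Submodule.mul_mem_mul hu hw))
    (fun x x' hxx u w h hu hw => by
      obtain ⟨s, hs, hsu⟩ := bs_ker hG hxx (Submodule.mul_mem_mul hu hw)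
      have e2 : (⟨u * w, h⟩ : (⊥ : Subalgebra T (∀ κ, L κ))) =
          ⟨algebraMap T (∀ κ, L κ) s, hsu ▸ h⟩ := Subtype.ext hsu.symm
      rw [e2, hφ, Ideal.Quotient.eq_zero_iff_mem.2 hs])
    hDb hH5 (fun z z' h => by
      show Ideal.Quotient.mk I (C0 z z') = 0
      rw [hC0ne z z' (htne z z' h), map_zero])
  have hDv : D.mulVec v = 0 := by
    funext z
    show ∑ z', D z z' * v z' = 0
    have e1 : ∀ z', D z z' * v z' = C0 z z' • v z' - β z z' * v z' := by
      intro z'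
      show (algebraMap T (∀ κ, L κ) (C0 z z') - β z z') * v z' = _
      rw [sub_mul, Algebra.smul_def]
    rw [Finset.sum_congr rfl (fun z' _ => e1 z'), Finset.sum_sub_distrib, hβ2 z, sub_self]
  have hdv : ∀ z, D.det * v z = 0 := by
    intro z
    have e1 : D.adjugate.mulVec (D.mulVec v) = 0 := by rw [hDv, Matrix.mulVec_zero]
    rw [Matrix.mulVec_mulVec, Matrix.adjugate_mul, Matrix.smul_mulVec, Matrix.one_mulVec] at e1
    exact congrFun e1 z
  obtain ⟨i0, hi0⟩ := hS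
  obtain ⟨j0, hj0⟩ := hS'
  have hdet0 : D.det = 0 := by
    funext κ
    by_contra hne
    obtain ⟨x, hx, hxκ⟩ := hG.ne i0 j0 κ
    apply hxκ
    have hle : Submodule.span T (Set.range (v0 (⟨i0, hi0⟩, ⟨j0, hj0⟩))) ≤
        LinearMap.ker (LinearMap.proj κ : (∀ κ, L κ) →ₗ[T] L κ) := by
      rw [Submodule.span_le]
      rintro _ ⟨p, rfl⟩
      have h3 := congrFun (hdv (⟨(⟨i0, hi0⟩, ⟨j0, hj0⟩), p⟩ : Y)) κ
      exact (mul_eq_zero.1 h3).resolve_left hne
    exact hle (hv2 (⟨i0, hi0⟩, ⟨j0, hj0⟩) hx)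
  have e1 : (⟨D.det, hdT⟩ : (⊥ : Subalgebra T (∀ κ, L κ))) = 0 := Subtype.ext hdet0
  rw [e1, map_zero] at hdet
  have e2 : D'.det = Ideal.Quotient.mk I C0.det := by
    show (C0.map (Ideal.Quotient.mk I)).det = _
    rw [RingHom.map_det]
    rfl
  rw [e2, hC0det] at hdet
  exact Ideal.Quotient.eq_zero_iff_mem.1 hdet.symm

end Pool.Agent.H176.CF.FITT
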