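import Pool.Agent.H499.CF.Stm

set_option autoImplicit false

/-!
# Project CF, job GMA: assembly of the generalised matrix algebra (helper686, after the CD version of helper294)
-/

namespace Pool.Agent.H686.CF

open Matrix IsLocalRing Pool.Agent.H499.CF

section abs

variable {T C R J : Type} [CommRing T] [CommRing C] [Algebra T C] [CommRing R] [Algebra T R]
  [Fintype J] [DecidableEq J] {d : J → ℕ}

/-- the entries of the algebra `A` -/
def ent (A : Subalgebra T (Matrix (Σ i, Fin (d i)) (Σ i, Fin (d i)) C)) (i j : J) :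
    Submodule T C where
  carrier := {t | ∀ p q, Matrix.single (⟨i, p⟩ : Σ i, Fin (d i)) ⟨j, q⟩ t ∈ A}
  add_mem' := by
    intro x y hx hy p q
    rw [Matrix.single_add]
    exact A.add_mem (hx p q) (hy p q)
  zero_mem' := by
    intro p q
    rw [Matrix.single_zero]
    exact A.zero_mem
  smul_mem' := by
    intro c x hx p q
    rw [← Matrix.smul_single]
    exact A.smul_mem (hx p q) c

/-- the abstract situation: `A` contains the standard matrix units -/
structure Abs (A : Subalgebra T (Matrix (Σ i, Fin (d i)) (Σ i, Fin (d i)) C))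
    (Φ : A →ₐ[T] (∀ i, Matrix (Fin (d i)) (Fin (d i)) R)) : Prop where
  pos : ∀ i, 0 < d i
  unit : ∀ i a b, ∃ h : Matrix.single (⟨i, a⟩ : Σ i, Fin (d i)) ⟨i, b⟩ (1 : C) ∈ A,
    Φ ⟨_, h⟩ = Pi.single i (Matrix.single a b 1)
  tr : ∀ x ∈ A, ∃ s : T, algebraMap T C s = x.trace

variable {A : Subalgebra T (Matrix (Σ i, Fin (d i)) (Σ i, Fin (d i)) C)}
  {Φ : A →ₐ[T] (∀ i, Matrix (Fin (d i)) (Fin (d i)) R)}

/-- the entries of an element of `A` -/
theorem Abs.entry (h : Abs A Φ) {M : Matrix (Σ i, Fin (d i)) (Σ i, Fin (d i)) C} (hM : M ∈ A)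
    (x y : Σ i, Fin (d i)) : M x y ∈ ent A x.1 y.1 := by
  obtain ⟨i, p0⟩ := x
  obtain ⟨j, q0⟩ := y
  intro p q
  obtain ⟨h1, -⟩ := h.unit i p p0
  obtain ⟨h2, -⟩ := h.unit j q0 q
  have h3 := A.mul_mem (A.mul_mem h1 hM) h2
  rw [Matrix.single_mul_mul_single, one_mul, mul_one] at h3
  exact h3

theorem Abs.diag (h : Abs A Φ) (i : J) (x : C) :
    x ∈ ent A i i ↔ ∃ s : T, algebraMap T C s = x := by
  constructor
  · intro hx
    have h1 := h.tr _ (hx ⟨0, h.pos i⟩ ⟨0, h.pos i⟩)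
    rwa [Matrix.trace_single_eq_same] at h1
  · rintro ⟨s, rfl⟩ p q
    obtain ⟨h1, -⟩ := h.unit i p q
    have h2 := A.smul_mem h1 s
    rw [Matrix.smul_single, Algebra.smul_def, mul_one] at h2
    exact h2

theorem Abs.mul (h : Abs A Φ) (i j l : J) (x y : C) (hx : x ∈ ent A i j) (hy : y ∈ ent A j l) :
    x * y ∈ ent A i l := by
  intro p q
  have h1 := A.mul_mem (hx p ⟨0, h.pos j⟩) (hy ⟨0, h.pos j⟩ q)
  rwa [Matrix.single_mul_single_same] at h1

/-- `Φ` of an entry of `T` -/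
theorem Abs.phi_diag (h : Abs A Φ) (i : J) (p q : Fin (d i)) (t : T) (x : C)
    (htx : algebraMap T C t = x)
    (ht : Matrix.single (⟨i, p⟩ : Σ i, Fin (d i)) ⟨i, q⟩ x ∈ A) :
    Φ ⟨_, ht⟩ = Pi.single i (Matrix.single p q (algebraMap T R t)) := by
  obtain ⟨h1, h1'⟩ := h.unit i p q
  have h3 : (⟨_, ht⟩ : A) = t • ⟨_, h1⟩ := by
    apply Subtype.ext
    change _ = t • Matrix.single (⟨i, p⟩ : Σ i, Fin (d i)) (⟨i, q⟩ : Σ i, Fin (d i)) (1 : C)
    rw [Matrix.smul_single, Algebra.smul_def, mul_one, htx]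
  rw [h3, map_smul, h1']
  funext j
  rw [Pi.smul_apply]
  by_cases hj : j = i
  · subst hj
    rw [Pi.single_eq_same, Pi.single_eq_same, Matrix.smul_single, Algebra.smul_def, mul_one]
  · rw [Pi.single_eq_of_ne hj, Pi.single_eq_of_ne hj, smul_zero]

/-- `Φ` of an entry of different types -/
theorem Abs.phi_ne (h : Abs A Φ) {i j : J} (hij : i ≠ j) (p : Fin (d i)) (q : Fin (d j)) (t : C)
    (ht : Matrix.single (⟨i, p⟩ : Σ i, Fin (d i)) ⟨j, q⟩ t ∈ A) : Φ ⟨_, ht⟩ = 0 := by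
  obtain ⟨h1, h1'⟩ := h.unit i p p
  obtain ⟨h2, h2'⟩ := h.unit j q q
  have h3 : (⟨_, ht⟩ : A) = ⟨_, h1⟩ * ⟨_, ht⟩ * ⟨_, h2⟩ := by
    apply Subtype.ext
    change _ = Matrix.single (⟨i, p⟩ : Σ i, Fin (d i)) (⟨i, p⟩ : Σ i, Fin (d i)) (1 : C) *
      Matrix.single (⟨i, p⟩ : Σ i, Fin (d i)) (⟨j, q⟩ : Σ i, Fin (d i)) t *
      Matrix.single (⟨j, q⟩ : Σ i, Fin (d i)) (⟨j, q⟩ : Σ i, Fin (d i)) (1 : C)
    rw [Matrix.single_mul_single_same, Matrix.single_mul_single_same, one_mul, mul_one]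
  rw [h3, map_mul, map_mul, h1', h2']
  funext l
  rw [Pi.mul_apply, Pi.mul_apply, Pi.zero_apply]
  by_cases hl : l = i
  · rw [Pi.single_eq_of_ne (fun h4 => hij (hl.symm.trans h4)), mul_zero]
  · rw [Pi.single_eq_of_ne hl, zero_mul, zero_mul]

theorem Abs.ker (h : Abs A Φ) (i j : J) (hij : i ≠ j) (x y : C) (s : T)
    (hx : x ∈ ent A i j) (hy : y ∈ ent A j i) (hs : algebraMap T C s = x * y) :
    algebraMap T R s = 0 := by
  have p : Fin (d i) := ⟨0, h.pos i⟩
  have q : Fin (d j) := ⟨0, h.pos j⟩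
  have h0 : Matrix.single (⟨i, p⟩ : Σ i, Fin (d i)) ⟨i, p⟩ (x * y) ∈ A := h.mul i j i x y hx hy p p
  have h1 := h.phi_diag i p p s (x * y) hs h0
  have h2 := h.phi_ne hij p q x (hx p q)
  have h3 : (⟨_, h0⟩ : A) = ⟨_, hx p q⟩ * ⟨_, hy q p⟩ := by
    apply Subtype.ext
    change _ = Matrix.single (⟨i, p⟩ : Σ i, Fin (d i)) (⟨j, q⟩ : Σ i, Fin (d i)) x *
      Matrix.single (⟨j, q⟩ : Σ i, Fin (d i)) (⟨i, p⟩ : Σ i, Fin (d i)) y
    rw [Matrix.single_mul_single_same]
  rw [h3, map_mul, h2, zero_mul] at h1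
  have h4 := congrFun (congrFun (congrFun h1 i) p) p
  rw [Pi.single_eq_same, Matrix.single_apply_same] at h4
  exact h4.symm

/-- the diagonal blocks -/
theorem Abs.phi_entry (h : Abs A Φ) {M : Matrix (Σ i, Fin (d i)) (Σ i, Fin (d i)) C}
    (hM : M ∈ A) (i : J) (p q : Fin (d i)) (s : T) (hs : algebraMap T C s = M ⟨i, p⟩ ⟨i, q⟩) :
    algebraMap T R s = Φ ⟨M, hM⟩ i p q := by
  obtain ⟨h1, h1'⟩ := h.unit i p p
  obtain ⟨h2, h2'⟩ := h.unit i q q
  have h0 : Matrix.single (⟨i, p⟩ : Σ i, Fin (d i)) ⟨i, q⟩ (M ⟨i, p⟩ ⟨i, q⟩) ∈ A :=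
    h.entry hM ⟨i, p⟩ ⟨i, q⟩ p q
  have h3 : (⟨_, h0⟩ : A) = ⟨_, h1⟩ * ⟨_, hM⟩ * ⟨_, h2⟩ := by
    apply Subtype.ext
    change _ = Matrix.single (⟨i, p⟩ : Σ i, Fin (d i)) (⟨i, p⟩ : Σ i, Fin (d i)) (1 : C) * M *
      Matrix.single (⟨i, q⟩ : Σ i, Fin (d i)) (⟨i, q⟩ : Σ i, Fin (d i)) (1 : C)
    rw [Matrix.single_mul_mul_single, one_mul, mul_one]
  have h4 := h.phi_diag i p q s _ hs h0
  rw [h3, map_mul, map_mul, h1', h2'] at h4
  have h5 := congrFun (congrFun (congrFun h4 i) p) q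
  rw [Pi.mul_apply, Pi.mul_apply, Pi.single_eq_same, Pi.single_eq_same, Pi.single_eq_same,
    Matrix.single_mul_mul_single, one_mul, mul_one, Matrix.single_apply_same,
    Matrix.single_apply_same] at h5
  exact h5.symm

/-- the entries form finitely generated modules -/
theorem ent_fg [IsNoetherianRing T] (h : Abs A Φ) (hA : IsNoetherian T A) (i j : J) :
    (ent A i j).FG := by
  have p : Fin (d i) := ⟨0, h.pos i⟩
  have q : Fin (d j) := ⟨0, h.pos j⟩
  let f : ent A i j →ₗ[T] A :=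
    { toFun := fun t => ⟨Matrix.single (⟨i, p⟩ : Σ i, Fin (d i)) ⟨j, q⟩ (t : C), t.2 p q⟩
      map_add' := by
        intro x y
        apply Subtype.ext
        exact Matrix.single_add _ _ _ _
      map_smul' := by
        intro c x
        apply Subtype.ext
        exact (Matrix.smul_single _ _ _ _).symm }
  have hf : Function.Injective f := by
    intro x y hxy
    apply Subtype.ext
    have h1 : Matrix.single (⟨i, p⟩ : Σ i, Fin (d i)) (⟨j, q⟩ : Σ i, Fin (d i)) (x : C) =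
        Matrix.single (⟨i, p⟩ : Σ i, Fin (d i)) (⟨j, q⟩ : Σ i, Fin (d i)) (y : C) :=
      congrArg Subtype.val hxy
    have h2 := congrFun (congrFun h1 ⟨i, p⟩) ⟨j, q⟩
    rwa [Matrix.single_apply_same, Matrix.single_apply_same] at h2
  have h3 : IsNoetherian T (ent A i j) := isNoetherian_of_injective f hf
  exact (Submodule.fg_top _).1 (h3.noetherian ⊤)

end abs

/-! ### Conjugation -/

/-- conjugation `M ↦ Q M P` -/
def cj {O C X : Type} [CommRing O] [CommRing C] [Algebra O C] [Fintype X] [DecidableEq X]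
    (P Q : Matrix X X C) (h : P * Q = 1) (h' : Q * P = 1) : Matrix X X C →ₐ[O] Matrix X X C where
  toFun M := Q * M * P
  map_one' := by rw [mul_one, h']
  map_mul' M N := by
    calc Q * (M * N) * P = Q * M * 1 * (N * P) := by simp only [mul_one, mul_assoc]
      _ = Q * M * (P * Q) * (N * P) := by rw [h]
      _ = Q * M * P * (Q * N * P) := by simp only [mul_assoc]
  map_zero' := by rw [mul_zero, zero_mul]
  map_add' M N := by rw [mul_add, add_mul]
  commutes' r := by rw [← Algebra.commutes, mul_assoc, h', mul_one]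

/-- evaluation at `κ` -/
def ev {K X : Type} {L : K → Type} [∀ κ, Field (L κ)] [Fintype X] [DecidableEq X] (κ : K) :
    Matrix X X (∀ κ, L κ) →+* Matrix X X (L κ) := (Pi.evalRingHom L κ).mapMatrix

theorem ev_apply {K X : Type} {L : K → Type} [∀ κ, Field (L κ)] [Fintype X] [DecidableEq X] (κ : K)
    (M : Matrix X X (∀ κ, L κ)) (x y : X) : ev κ M x y = M x y κ := rfl

theorem ev_ext {K X : Type} {L : K → Type} [∀ κ, Field (L κ)] [Fintype X] [DecidableEq X]
    {M N : Matrix X X (∀ κ, L κ)} (h : ∀ κ, ev κ M = ev κ N) : M = N := by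
  ext x y κ
  exact congrFun (congrFun (h κ) x) y

theorem ev_fam {G K X : Type} {L : K → Type} [∀ κ, Field (L κ)] [Group G] [Fintype X]
    [DecidableEq X] (r : ∀ κ, G →* Matrix X X (L κ)) (κ : K) (g : G) :
    ev κ (fam r g) = r κ g := rfl

/-- a matrix from its values -/
def glue {K X : Type} {L : K → Type} (P : ∀ κ, Matrix X X (L κ)) : Matrix X X (∀ κ, L κ) :=
  Matrix.of fun x y κ => P κ x y

theorem ev_glue {K X : Type} {L : K → Type} [∀ κ, Field (L κ)] [Fintype X] [DecidableEq X]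
    (P : ∀ κ, Matrix X X (L κ)) (κ : K) : ev κ (glue P) = P κ := rfl

/-- some entry is not zero -/
theorem exists_ne {F G X : Type} [Field F] [Fintype X] [DecidableEq X] (r : G → Matrix X X F)
    (hr : Submodule.span F (Set.range r) = ⊤) (P Q : Matrix X X F) (hPQ : P * Q = 1) (x y : X) :
    ∃ g, (P * r g * Q) x y ≠ 0 := by
  by_contra hcon
  push Not at hcon
  let f : Matrix X X F →ₗ[F] F :=
    { toFun := fun M => (P * M * Q) x y
      map_add' := by
        intro M N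
        rw [mul_add, add_mul, Matrix.add_apply]
      map_smul' := by
        intro c M
        rw [mul_smul_comm, smul_mul_assoc, Matrix.smul_apply]
        rfl }
  have h1 : Submodule.span F (Set.range r) ≤ LinearMap.ker f := by
    apply Submodule.span_le.2
    rintro _ ⟨g, rfl⟩
    exact hcon g
  rw [hr] at h1
  have h2 : f (Q * Matrix.single x y 1 * P) = 0 := h1 Submodule.mem_top
  have h3 : f (Q * Matrix.single x y 1 * P) = 1 := by
    change (P * (Q * (Matrix.single x y (1 : F) : Matrix X X F) * P) * Q : Matrix X X F) x y = 1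
    have h4 : P * (Q * Matrix.single x y (1 : F) * P) * Q =
        (P * Q) * Matrix.single x y 1 * (P * Q) := by
      simp only [mul_assoc]
    rw [h4, hPQ, one_mul, mul_one, Matrix.single_apply_same]
  rw [h3] at h2
  exact one_ne_zero h2

/-- **GMA** -/
theorem gma (h1 : S_PHI) (h2 : S_FIT) (h3 : S_STAR) (h4 : Pool.Agent.H499.CD.S_LIFT)
    (h5 : Pool.Agent.H499.CD.S_STD) : S_GMA := by
  intro T G K J L _ _ _ _ _ _ _ _ _ _ I d ρ r t hyp
  obtain ⟨A, Φ, hfin, p1, p2, p4, p5⟩ := h1 T G K J L I d ρ r t hyp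
  have p6 : ∀ x : A, (Φ : A →+* (∀ i, Matrix (Fin (d i)) (Fin (d i)) (T ⧸ I))) x = 0 →
      ∃ M : ℕ, x ^ M ∈ (maximalIdeal T) • (⊤ : Submodule T A) := by
    intro x hx
    have hx' : Φ x = 0 := hx
    obtain ⟨e, y, he, hexy, -, -, M, hM⟩ := h2 T A x
    have h6 : Φ e = 0 := by
      rw [hexy, map_mul, hx', zero_mul]
    have h7 := h3 T K J L I d A Φ hfin hyp.ne_top p4 p5 e he h6
    refine ⟨M, ?_⟩
    rwa [h7, sub_zero, mul_one] at hM
  obtain ⟨E, e1, e2, e3, e4, e5⟩ := h4 T A (T ⧸ I) J d (Φ : A →+* _) p4 p6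
  have e1' : ∀ i a b, Φ (E i a b) = Pi.single i (Matrix.single a b 1) := e1
  -- the matrix units at `κ`
  have hst : ∀ κ : K, ∃ P Q : Matrix (Σ i, Fin (d i)) (Σ i, Fin (d i)) (L κ), P * Q = 1 ∧ Q * P = 1 ∧
      ∀ i a b, P * ev κ ((E i a b : A) : Matrix (Σ i, Fin (d i)) (Σ i, Fin (d i)) (∀ κ, L κ)) * Q =
        Matrix.single ⟨i, a⟩ ⟨i, b⟩ 1 := by
    intro κ
    refine h5 (L κ) J d (fun i a b =>
      ev κ ((E i a b : A) : Matrix (Σ i, Fin (d i)) (Σ i, Fin (d i)) (∀ κ, L κ))) ?_ ?_ ?_ ?_ ?_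
    · intro i a b c
      rw [← map_mul, ← Subalgebra.coe_mul, e2]
    · intro i a b c e hbc
      rw [← map_mul, ← Subalgebra.coe_mul, e3 i a b c e hbc, Subalgebra.coe_zero, map_zero]
    · intro i j hij a b c e
      rw [← map_mul, ← Subalgebra.coe_mul, e4 i j hij a b c e, Subalgebra.coe_zero, map_zero]
    · have h5 := congrArg (fun x : A =>
        ev κ (x : Matrix (Σ i, Fin (d i)) (Σ i, Fin (d i)) (∀ κ, L κ))) e5
      simp only [AddSubmonoidClass.coe_finsetSum, map_sum, Subalgebra.coe_one, map_one] at h5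
      exact h5
    · intro i a h0
      obtain ⟨s, hs, hs'⟩ := p5 (E i a a)
      have h6 : ∑ j, (Φ (E i a a) j).trace = 1 := by
        rw [e1', Finset.sum_eq_single i]
        · rw [Pi.single_eq_same, Matrix.trace_single_eq_same]
        · intro j _ hj
          rw [Pi.single_eq_of_ne hj, Matrix.trace_zero]
        · intro h
          exact absurd (Finset.mem_univ _) h
      rw [h6, ← map_one (Ideal.Quotient.mk I)] at hs'
      have h7 : s - 1 ∈ I := Ideal.Quotient.eq.1 hs'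
      have h8 : s - 1 ∈ maximalIdeal T := IsLocalRing.le_maximalIdeal hyp.ne_top h7
      have h9 : IsUnit s := by
        by_contra hs1
        have h10 : s ∈ maximalIdeal T := hs1
        have h11 := (maximalIdeal T).sub_mem h10 h8
        rw [sub_sub_cancel] at h11
        exact (Ideal.ne_top_iff_one _).1 (maximalIdeal.isMaximal T).ne_top h11
      have h12 : algebraMap T (L κ) s =
          (ev κ ((E i a a : A) : Matrix (Σ i, Fin (d i)) (Σ i, Fin (d i)) (∀ κ, L κ))).trace := by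
        have h13 := congrFun hs κ
        change _ = algebraMap T (L κ) s at h13
        rw [← h13]
        change (∑ x, ((E i a a : A) : Matrix (Σ i, Fin (d i)) (Σ i, Fin (d i)) (∀ κ, L κ)) x x) κ = _
        rw [Finset.sum_apply]
        rfl
      rw [h0, Matrix.trace_zero] at h12
      exact (h9.map (algebraMap T (L κ))).ne_zero h12
  choose P Q hPQ hQP hS using hst
  -- the conjugation
  have hPQ' : glue P * glue Q = 1 := ev_ext fun κ => by
    rw [map_mul, ev_glue, ev_glue, hPQ, map_one]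
  have hQP' : glue Q * glue P = 1 := ev_ext fun κ => by
    rw [map_mul, ev_glue, ev_glue, hQP, map_one]
  let c1 := cj (O := T) (glue P) (glue Q) hPQ' hQP'
  let A' : Subalgebra T (Matrix (Σ i, Fin (d i)) (Σ i, Fin (d i)) (∀ κ, L κ)) := A.comap c1
  have hA' : ∀ M, M ∈ A' ↔ glue Q * M * glue P ∈ A := fun M => Iff.rfl
  let c2 : A' →ₐ[T] A := (c1.comp A'.val).codRestrict A fun x => x.2
  let Φ' : A' →ₐ[T] (∀ i, Matrix (Fin (d i)) (Fin (d i)) (T ⧸ I)) := Φ.comp c2
  have hΦ' : ∀ (M) (hM : M ∈ A') (hM' : glue Q * M * glue P ∈ A), Φ' ⟨M, hM⟩ = Φ ⟨_, hM'⟩ :=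
    fun M hM hM' => rfl
  have hcong : ∀ (M N : Matrix (Σ i, Fin (d i)) (Σ i, Fin (d i)) (∀ κ, L κ)) (hM : M ∈ A)
      (hN : N ∈ A), M = N → Φ ⟨M, hM⟩ = Φ ⟨N, hN⟩ := by
    rintro M _ hM hN rfl
    rfl
  let R : G →* Matrix (Σ i, Fin (d i)) (Σ i, Fin (d i)) (∀ κ, L κ) :=
    { toFun := fun g => glue P * fam r g * glue Q
      map_one' := by rw [map_one, mul_one, hPQ']
      map_mul' := fun g h => by
        calc glue P * fam r (g * h) * glue Q
            = glue P * fam r g * 1 * (fam r h * glue Q) := by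
              rw [map_mul]; simp only [mul_one, mul_assoc]
          _ = glue P * fam r g * (glue Q * glue P) * (fam r h * glue Q) := by rw [hQP']
          _ = glue P * fam r g * glue Q * (glue P * fam r h * glue Q) := by
              simp only [mul_assoc] }
  have hR : ∀ g, R g = glue P * fam r g * glue Q := fun g => rfl
  have hRev : ∀ κ g, ev κ (R g) = P κ * r κ g * Q κ := by
    intro κ g
    rw [hR, map_mul, map_mul, ev_glue, ev_glue, ev_fam]
  have hback : ∀ M : Matrix (Σ i, Fin (d i)) (Σ i, Fin (d i)) (∀ κ, L κ),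
      glue Q * (glue P * M * glue Q) * glue P = M := by
    intro M
    calc glue Q * (glue P * M * glue Q) * glue P
        = (glue Q * glue P) * M * (glue Q * glue P) := by simp only [mul_assoc]
      _ = M := by rw [hQP', one_mul, mul_one]
  have hforth : ∀ M : Matrix (Σ i, Fin (d i)) (Σ i, Fin (d i)) (∀ κ, L κ),
      glue P * (glue Q * M * glue P) * glue Q = M := by
    intro M
    calc glue P * (glue Q * M * glue P) * glue Q
        = (glue P * glue Q) * M * (glue P * glue Q) := by simp only [mul_assoc]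
      _ = M := by rw [hPQ', one_mul, mul_one]
  have hc2 : Function.Injective c2 := by
    intro x y hxy
    apply Subtype.ext
    have h6 : glue Q * (x : Matrix (Σ i, Fin (d i)) (Σ i, Fin (d i)) (∀ κ, L κ)) * glue P =
        glue Q * (y : Matrix (Σ i, Fin (d i)) (Σ i, Fin (d i)) (∀ κ, L κ)) * glue P :=
      congrArg Subtype.val hxy
    rw [← hforth (x : Matrix (Σ i, Fin (d i)) (Σ i, Fin (d i)) (∀ κ, L κ)), h6, hforth]
  have hnoe : IsNoetherian T A := isNoetherian_of_isNoetherianRing_of_finite T A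
  have hnoe' : IsNoetherian T A' := isNoetherian_of_injective c2.toLinearMap hc2
  have hRA : ∀ g, R g ∈ A' := by
    intro g
    rw [hA', hR, hback]
    exact (p1 g).1
  have habs : Abs A' Φ' := by
    refine ⟨hyp.pos, ?_, ?_⟩
    · intro i a b
      have h6 : glue Q * Matrix.single (⟨i, a⟩ : Σ i, Fin (d i)) (⟨i, b⟩ : Σ i, Fin (d i))
          (1 : ∀ κ, L κ) * glue P = ((E i a b : A) :
            Matrix (Σ i, Fin (d i)) (Σ i, Fin (d i)) (∀ κ, L κ)) := by
        apply ev_ext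
        intro κ
        have h7 : ev κ (Matrix.single (⟨i, a⟩ : Σ i, Fin (d i)) (⟨i, b⟩ : Σ i, Fin (d i))
            (1 : ∀ κ, L κ)) = Matrix.single ⟨i, a⟩ ⟨i, b⟩ 1 := by
          ext x y
          rw [ev_apply, Matrix.single_apply, Matrix.single_apply]
          split_ifs <;> rfl
        rw [map_mul, map_mul, ev_glue, ev_glue, h7, ← hS κ i a b]
        calc Q κ * (P κ * ev κ ((E i a b : A) : Matrix (Σ i, Fin (d i)) (Σ i, Fin (d i)) (∀ κ, L κ)) *
              Q κ) * P κ = (Q κ * P κ) * ev κ ((E i a b : A) :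
                Matrix (Σ i, Fin (d i)) (Σ i, Fin (d i)) (∀ κ, L κ)) * (Q κ * P κ) := by
              simp only [mul_assoc]
          _ = _ := by rw [hQP, one_mul, mul_one]
      refine ⟨(hA' _).2 (by rw [h6]; exact (E i a b).2), ?_⟩
      rw [hΦ' _ _ (by rw [h6]; exact (E i a b).2), ← e1' i a b]
      exact congrArg Φ (Subtype.ext h6)
    · intro x hx
      obtain ⟨s, h7, -⟩ := p5 ⟨_, (hA' _).1 hx⟩
      have h6 : (glue Q * x * glue P).trace = x.trace := by
        rw [Matrix.trace_mul_cycle, hPQ', one_mul]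
      refine ⟨s, ?_⟩
      rw [← h6]
      exact h7.symm
  refine ⟨P, Q, ent A', R, hPQ, hQP, ?_, ?_, ?_⟩
  · intro g x y κ
    rw [← hRev]
    rfl
  · refine ⟨habs.diag, habs.mul, ?_, fun i j κ => ?_, ent_fg habs hnoe'⟩
    · intro i j hij x y s hx hy hs
      exact Ideal.Quotient.eq_zero_iff_mem.1 (habs.ker i j hij x y s hx hy hs)
    · obtain ⟨g, hg⟩ := exists_ne (fun g => r κ g) (hyp.irr κ) (P κ) (Q κ) (hPQ κ)
        ⟨i, ⟨0, hyp.pos i⟩⟩ ⟨j, ⟨0, hyp.pos j⟩⟩
      refine ⟨R g ⟨i, ⟨0, hyp.pos i⟩⟩ ⟨j, ⟨0, hyp.pos j⟩⟩,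
        habs.entry (hRA g) ⟨i, ⟨0, hyp.pos i⟩⟩ ⟨j, ⟨0, hyp.pos j⟩⟩, ?_⟩
      rw [← hRev] at hg
      exact hg
  · refine ⟨fun g x y => habs.entry (hRA g) x y, ?_, ?_⟩
    · intro g i p q s hs
      have h8 := habs.phi_entry (hRA g) i p q s hs
      obtain ⟨h4, h5⟩ := p1 g
      have h6 : glue Q * R g * glue P = fam r g := by rw [hR, hback]
      have h7 := h4
      rw [← h6] at h7
      rw [hΦ' _ _ h7, hcong _ _ h7 h4 h6, h5] at h8
      exact h8
    · intro x y t ht
      have h4 : Matrix.single x y t ∈ A' := ht x.2 y.2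
      obtain ⟨c, hc⟩ := p2 _ ((hA' _).1 h4)
      refine ⟨c, ?_⟩
      rw [← hforth (Matrix.single x y t), ← hc, Finsupp.sum, Finsupp.sum, Finset.mul_sum,
        Finset.sum_mul]
      refine Finset.sum_congr rfl fun g _ => ?_
      rw [hR, mul_smul_comm, smul_mul_assoc]

end Pool.Agent.H686.CF
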