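import Pool.Agent.H499.CF.Stm

/-!
# LOC: from Fitting ideals to lengths at primes with a discrete valuation ring as local ring
-/

set_option autoImplicit false

namespace Pool.Agent.H643.CF

open Pool.Agent.H499.CF

/-! ### Orders in a discrete valuation ring -/

section dvr

variable {S : Type} [CommRing S] [IsDomain S]

theorem ord_mul_le (a b : S) : Ring.ord S (a * b) ≤ Ring.ord S a + Ring.ord S b := by
  by_cases hb : b = 0
  · rw [hb, mul_zero]
    exact le_add_left le_rfl
  · rw [Ring.ord_mul S (mem_nonZeroDivisors_of_ne_zero hb)]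

theorem ord_prod_le {ι : Type} (s : Finset ι) (a : ι → S) :
    Ring.ord S (∏ i ∈ s, a i) ≤ ∑ i ∈ s, Ring.ord S (a i) := by
  classical
  induction s using Finset.induction_on with
  | empty => rw [Finset.prod_empty, Finset.sum_empty, Ring.ord_one]
  | insert i s hi ih =>
    rw [Finset.prod_insert hi, Finset.sum_insert hi]
    exact (ord_mul_le _ _).trans (add_le_add le_rfl ih)

open Classical in
/-- a matrix of relations whose determinant has order at most the length -/
theorem exists_rel [IsPrincipalIdealRing S] {M : Type} [AddCommGroup M] [Module S M] {m : ℕ}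
    (π : (Fin m → S) →ₗ[S] M) (hπ : Function.Surjective π) :
    ∃ C : Matrix (Fin m) (Fin m) S, (∀ i, π (C i) = 0) ∧ Ring.ord S C.det ≤ Module.length S M := by
  obtain ⟨n, snf⟩ := Submodule.smithNormalForm (Pi.basisFun S (Fin m)) (LinearMap.ker π)
  set a : Fin m → S := fun i => if h : ∃ k, snf.f k = i then snf.a h.choose else 0 with ha
  have haf : ∀ k, a (snf.f k) = snf.a k := by
    intro k
    have h : ∃ k', snf.f k' = snf.f k := ⟨k, rfl⟩
    rw [ha]
    simp only
    rw [dif_pos h, snf.f.injective h.choose_spec]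
  have ha0 : ∀ i, (¬ ∃ k, snf.f k = i) → a i = 0 := by
    intro i h
    rw [ha]
    simp only
    rw [dif_neg h]
  refine ⟨Matrix.of fun i => a i • snf.bM i, ?_, ?_⟩
  · intro i
    show π (a i • snf.bM i) = 0
    by_cases h : ∃ k, snf.f k = i
    · obtain ⟨k, rfl⟩ := h
      rw [haf, ← snf.snf k]
      exact (snf.bN k).2
    · rw [ha0 i h, zero_smul, map_zero]
  · have hdet : (Matrix.of fun i => a i • snf.bM i).det =
        (∏ i, a i) * (Matrix.of fun i => snf.bM i).det := by
      exact Matrix.det_mul_column a (Matrix.of fun i => snf.bM i)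
    have hunit : IsUnit (Matrix.of fun i => snf.bM i).det := by
      have := (Pi.basisFun S (Fin m)).isUnit_det snf.bM
      rw [Pi.basisFun_det_apply] at this
      exact this
    rw [hdet, Ring.ord_mul_of_isUnit_right hunit]
    refine (ord_prod_le _ _).trans ?_
    have e : ∑ i, Ring.ord S (a i) = Module.length S (∀ i, S ⧸ Ideal.span {a i}) := by
      rw [Module.length_pi_of_fintype]
      rfl
    rw [e]
    -- the surjection
    set φ : (Fin m → S) →ₗ[S] (∀ i, S ⧸ Ideal.span {a i}) :=
      LinearMap.pi fun i => (Ideal.span {a i}).mkQ ∘ₗ (Finsupp.lapply i) ∘ₗ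
        (snf.bM.repr : (Fin m → S) →ₗ[S] (Fin m →₀ S)) with hφ
    have hφs : Function.Surjective φ := by
      intro x
      choose y hy using fun i => Submodule.mkQ_surjective (Ideal.span {a i}) (x i)
      refine ⟨snf.bM.repr.symm (Finsupp.equivFunOnFinite.symm y), ?_⟩
      funext i
      rw [← hy i, hφ]
      simp
    have hker : LinearMap.ker π ≤ LinearMap.ker φ := by
      intro v hv
      rw [LinearMap.mem_ker]
      funext i
      have h1 : φ v i = Submodule.Quotient.mk (snf.bM.repr v i) := rfl
      rw [h1, Pi.zero_apply, Submodule.Quotient.mk_eq_zero, Ideal.mem_span_singleton]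
      by_cases h : ∃ k, snf.f k = i
      · obtain ⟨k, rfl⟩ := h
        have h2 := snf.repr_apply_embedding_eq_repr_smul ⟨v, hv⟩ (i := k)
        rw [haf]
        refine ⟨snf.bN.repr ⟨v, hv⟩ k, ?_⟩
        rw [map_smul, Finsupp.smul_apply, smul_eq_mul] at h2
        exact h2
      · have h2 := snf.repr_eq_zero_of_notMem_range ⟨v, hv⟩ (i := i) h
        rw [ha0 i h]
        exact ⟨0, by rw [mul_zero]; exact h2⟩
    have e1 : M ≃ₗ[S] ((Fin m → S) ⧸ LinearMap.ker π) := (π.quotKerEquivOfSurjective hπ).symm
    set ψ : ((Fin m → S) ⧸ LinearMap.ker π) →ₗ[S] (∀ i, S ⧸ Ideal.span {a i}) :=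
      (LinearMap.ker π).liftQ φ hker with hψ
    have hψs : Function.Surjective ψ := by
      intro x
      obtain ⟨v, hv⟩ := hφs x
      exact ⟨Submodule.Quotient.mk v, by rw [hψ, Submodule.liftQ_apply, hv]⟩
    exact Module.length_le_of_surjective (ψ ∘ₗ (e1 : M →ₗ[S] _)) (hψs.comp e1.surjective)

end dvr

theorem loc : S_LOC := by
  intro Λ R ι _ _ _ _ 𝔭 _ _ _ X _ _ _ _ _ hsurj hprod
  set S := Localization.AtPrime 𝔭 with hS
  -- the determinants
  have key : ∀ p, ∃ D : Λ, algebraMap Λ R D ∈ Fitt R (X p) ∧
      Ring.ord S (algebraMap Λ S D) ≤ lenAt 𝔭 (X p) := by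
    intro p
    obtain ⟨m, y, hy⟩ := Module.Finite.exists_fin (R := R) (M := X p)
    have hyΛ : Submodule.span Λ (Set.range y) = ⊤ := by
      rw [← Submodule.restrictScalars_span Λ R hsurj, hy, Submodule.restrictScalars_top]
    set f := LocalizedModule.mkLinearMap 𝔭.primeCompl (X p) with hf
    have hfs : Submodule.span S (f '' Set.range y) = ⊤ :=
      span_eq_top_of_isLocalizedModule S 𝔭.primeCompl f hyΛ
    set π : (Fin m → S) →ₗ[S] LocalizedModule 𝔭.primeCompl (X p) :=
      Fintype.linearCombination S (fun j => f (y j)) with hπ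
    have hπs : Function.Surjective π := by
      rw [← LinearMap.range_eq_top, hπ, Fintype.range_linearCombination, ← hfs]
      congr 1
      rw [← Set.range_comp]
      rfl
    obtain ⟨C', hC', hord⟩ := exists_rel π hπs
    -- clearing denominators
    obtain ⟨b, hb⟩ := IsLocalization.exist_integer_multiples_of_finite 𝔭.primeCompl
      (fun ij : Fin m × Fin m => C' ij.1 ij.2)
    choose c hc using hb
    have hcrel : ∀ i, f (∑ j, c (i, j) • y j) = 0 := by
      intro i
      have h1 := hC' i
      rw [hπ, Fintype.linearCombination_apply] at h1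
      rw [map_sum]
      have h2 : ∑ j, f (c (i, j) • y j) = (b : Λ) • ∑ j, C' i j • f (y j) := by
        rw [Finset.smul_sum]
        refine Finset.sum_congr rfl fun j _ => ?_
        rw [map_smul, ← smul_assoc, ← hc (i, j), algebraMap_smul]
      rw [h2, h1, smul_zero]
    have ht : ∀ i, ∃ t : 𝔭.primeCompl, t • (∑ j, c (i, j) • y j) = 0 := fun i =>
      (IsLocalizedModule.eq_zero_iff 𝔭.primeCompl f).1 (hcrel i)
    choose t ht using ht
    set C : Matrix (Fin m) (Fin m) Λ := Matrix.of fun i j => (t i : Λ) * c (i, j) with hC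
    refine ⟨C.det, ?_, ?_⟩
    · refine Ideal.subset_span ⟨m, y, C.map (algebraMap Λ R), hy, ?_, ?_⟩
      · intro i
        have h1 := ht i
        have h2 : ∑ j, (C.map (algebraMap Λ R)) i j • y j = t i • ∑ j, c (i, j) • y j := by
          rw [Submonoid.smul_def, Finset.smul_sum]
          refine Finset.sum_congr rfl fun j _ => ?_
          rw [Matrix.map_apply, algebraMap_smul, ← smul_assoc, smul_eq_mul]
          rfl
        rw [h2, h1]
      · rw [RingHom.map_det]
        rfl
    · refine le_trans (le_of_eq ?_) hord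
      have e1 : algebraMap Λ S C.det = (∏ i, algebraMap Λ S (t i)) *
          ((algebraMap Λ S b) ^ m * C'.det) := by
        rw [RingHom.map_det]
        have e2 : (algebraMap Λ S).mapMatrix C =
            Matrix.of fun i j => algebraMap Λ S (t i) * ((algebraMap Λ S b) • C') i j := by
          ext i j
          show algebraMap Λ S ((t i : Λ) * c (i, j)) = _
          rw [map_mul, Matrix.of_apply, Matrix.smul_apply]
          congr 1
          have := hc (i, j)
          rw [this, Algebra.smul_def]
          rfl
        rw [e2]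
        have e3 := Matrix.det_mul_column (fun i => algebraMap Λ S (t i)) ((algebraMap Λ S b) • C')
        rw [Matrix.det_smul, Fintype.card_fin] at e3
        exact e3
      rw [e1]
      have u1 : IsUnit (∏ i, algebraMap Λ S (t i)) := by
        rw [IsUnit.prod_univ_iff]
        exact fun i => IsLocalization.map_units S (t i)
      have u2 : IsUnit ((algebraMap Λ S b) ^ m) := (IsLocalization.map_units S b).pow m
      rw [Ring.ord_mul_of_isUnit_left u1, Ring.ord_mul_of_isUnit_left u2]
  choose D hD1 hD2 using key
  set E : Λ := ∏ p, D p with hE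
  have hE0 : algebraMap Λ R E = 0 := by
    have h1 : ∏ p, algebraMap Λ R (D p) ∈ ∏ p, Fitt R (X p) :=
      Ideal.prod_mem_prod fun p _ => hD1 p
    rw [hprod, Ideal.mem_bot, ← map_prod] at h1
    exact h1
  have h1 : Ring.ord S (algebraMap Λ S E) ≤ ∑ p, lenAt 𝔭 (X p) := by
    rw [hE, map_prod]
    exact (ord_prod_le _ _).trans (Finset.sum_le_sum fun p _ => hD2 p)
  refine le_trans ?_ h1
  -- the localisation of `R` is cyclic and killed by `E`
  set g := LocalizedModule.mkLinearMap 𝔭.primeCompl R with hg
  have hspan : Submodule.span Λ ({1} : Set R) = ⊤ := by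
    rw [Submodule.eq_top_iff']
    intro x
    obtain ⟨l, rfl⟩ := hsurj x
    rw [Submodule.mem_span_singleton]
    exact ⟨l, by rw [Algebra.smul_def, mul_one]⟩
  have hgs : Submodule.span S (g '' {1}) = ⊤ :=
    span_eq_top_of_isLocalizedModule S 𝔭.primeCompl g hspan
  set θ : S →ₗ[S] LocalizedModule 𝔭.primeCompl R := LinearMap.toSpanSingleton S _ (g 1) with hθ
  have hθs : Function.Surjective θ := by
    rw [← LinearMap.range_eq_top, hθ, LinearMap.range_toSpanSingleton, ← hgs, Set.image_singleton]
  have hθk : Ideal.span {algebraMap Λ S E} ≤ LinearMap.ker θ := by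
    rw [Ideal.span_singleton_le_iff_mem, LinearMap.mem_ker, hθ, LinearMap.toSpanSingleton_apply,
      algebraMap_smul, ← map_smul, Algebra.smul_def, mul_one, hE0, map_zero]
  have hs : Function.Surjective ((Ideal.span {algebraMap Λ S E}).liftQ θ hθk) := by
    intro x
    obtain ⟨v, hv⟩ := hθs x
    exact ⟨Submodule.Quotient.mk v, by rw [Submodule.liftQ_apply, hv]⟩
  exact Module.length_le_of_surjective _ hs

end Pool.Agent.H643.CF
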