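import Pool.Agent.H499.CF.Stm

/-! # MEM: the extensions are quotients of finite sums of stable lattices -/

set_option autoImplicit false

namespace Pool.Agent.H17.CF.MEM

open Matrix Pool.Agent.H499.CF

section main

variable {T G K J : Type} {L : K → Type} [CommRing T] [Group G] [∀ κ, Field (L κ)] [∀ κ, Algebra T (L κ)]
  {I : Ideal T} {d : J → ℕ} {a : J → J → Submodule T (∀ κ, L κ)}

/-- the products -/
def pr (hG : GMA I a) {i l j : J} (u : a i l) (v : a l j) : a i j :=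
  ⟨(u : ∀ κ, L κ) * (v : ∀ κ, L κ), hG.mul _ _ _ _ _ u.2 v.2⟩

lemma alg_inj (hinj : ∀ x : T, (∀ κ, algebraMap T (L κ) x = 0) → x = 0) (s t : T)
    (h : algebraMap T (∀ κ, L κ) s = algebraMap T (∀ κ, L κ) t) : s = t := by
  have h1 : s - t = 0 := by
    refine hinj _ fun κ => ?_
    have h2 := congrFun h κ
    rw [Pi.algebraMap_apply, Pi.algebraMap_apply] at h2
    rw [map_sub, h2, sub_self]
  exact sub_eq_zero.1 h1

/-- the element of `T` with the given image -/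
noncomputable def sel (hG : GMA I a) {j : J} (x : a j j) : T := ((hG.diag j _).1 x.2).choose

lemma sel_spec (hG : GMA I a) {j : J} (x : a j j) :
    algebraMap T (∀ κ, L κ) (sel hG x) = (x : ∀ κ, L κ) := ((hG.diag j _).1 x.2).choose_spec

lemma sel_of (hinj : ∀ x : T, (∀ κ, algebraMap T (L κ) x = 0) → x = 0) (hG : GMA I a) {j : J} (x : a j j)
    (s : T) (h : algebraMap T (∀ κ, L κ) s = (x : ∀ κ, L κ)) : sel hG x = s :=
  alg_inj hinj _ _ ((sel_spec hG x).trans h.symm)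

/-- the map from `a j j` to `T / I` -/
noncomputable def phj (hinj : ∀ x : T, (∀ κ, algebraMap T (L κ) x = 0) → x = 0) (hG : GMA I a) (j : J) :
    a j j →ₗ[T] T ⧸ I where
  toFun x := Ideal.Quotient.mk I (sel hG x)
  map_add' x y := by
    rw [← map_add]
    congr 1
    refine sel_of hinj hG _ _ ?_
    rw [map_add, sel_spec, sel_spec]
    rfl
  map_smul' c x := by
    rw [RingHom.id_apply]
    have h1 : sel hG (c • x) = c * sel hG x := by
      refine sel_of hinj hG _ _ ?_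
      rw [map_mul, sel_spec, Submodule.coe_smul, Algebra.smul_def]
    rw [h1, map_mul]
    rfl

variable (hinj : ∀ x : T, (∀ κ, algebraMap T (L κ) x = 0) → x = 0) (hG : GMA I a)

include hinj in
lemma phj_of {j : J} (x : a j j) (s : T) (h : algebraMap T (∀ κ, L κ) s = (x : ∀ κ, L κ)) :
    phj hinj hG j x = Ideal.Quotient.mk I s := by
  show Ideal.Quotient.mk I (sel hG x) = _
  rw [sel_of hinj hG x s h]

lemma phj_mul {j : J} (x y : a j j) : phj hinj hG j (pr hG x y) = phj hinj hG j x * phj hinj hG j y := by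
  rw [phj_of hinj hG (pr hG x y) (sel hG x * sel hG y) (by rw [map_mul, sel_spec, sel_spec]; rfl), map_mul]
  rfl

lemma phj_off {j l : J} (hl : l ≠ j) (x : a j l) (y : a l j) : phj hinj hG j (pr hG x y) = 0 := by
  show Ideal.Quotient.mk I (sel hG (pr hG x y)) = 0
  rw [Ideal.Quotient.eq_zero_iff_mem]
  exact hG.ker j l hl.symm _ _ _ x.2 y.2 (sel_spec hG (pr hG x y))

section M

variable {M : Type} [AddCommGroup M] [Module T M] [Module (T ⧸ I) M] [IsScalarTower T (T ⧸ I) M] {i j : J}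
  (h : (a i j ⧸ Rel I a i j) →ₗ[T] M)

lemma mk_smul_M (s : T) (m : M) : (Ideal.Quotient.mk I s) • m = s • m := algebraMap_smul (T ⧸ I) s m

lemma h_left (u : a i i) (v : a i j) : h (Submodule.Quotient.mk (pr hG u v)) =
    phj hinj hG i u • h (Submodule.Quotient.mk v) := by
  have h1 : pr hG u v = sel hG u • v := by
    apply Subtype.ext
    rw [Submodule.coe_smul, Algebra.smul_def, sel_spec]
    rfl
  rw [h1, Submodule.Quotient.mk_smul, map_smul]
  exact (mk_smul_M _ _).symm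

lemma h_right (u : a i j) (v : a j j) : h (Submodule.Quotient.mk (pr hG u v)) =
    phj hinj hG j v • h (Submodule.Quotient.mk u) := by
  have h1 : pr hG u v = sel hG v • u := by
    apply Subtype.ext
    rw [Submodule.coe_smul, Algebra.smul_def, sel_spec]
    exact mul_comm _ _
  rw [h1, Submodule.Quotient.mk_smul, map_smul]
  exact (mk_smul_M _ _).symm

omit [Module (T ⧸ I) M] [IsScalarTower T (T ⧸ I) M] in
lemma h_zero {l : J} (hi : l ≠ i) (hj : l ≠ j) (u : a i l) (v : a l j) :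
    h (Submodule.Quotient.mk (pr hG u v)) = 0 := by
  have h1 : (Submodule.Quotient.mk (pr hG u v) : a i j ⧸ Rel I a i j) = 0 := by
    rw [Submodule.Quotient.mk_eq_zero]
    exact Submodule.subset_span (Or.inl ⟨l, hi, hj, _, u.2, _, v.2, rfl⟩)
  rw [h1, map_zero]

end M

variable [Fintype J] [DecidableEq J] {ρ : ∀ i, G →* Matrix (Fin (d i)) (Fin (d i)) (T ⧸ I)}
  {R : G →* Matrix (Σ i, Fin (d i)) (Σ i, Fin (d i)) (∀ κ, L κ)} (hR : GRep ρ R a)

/-- the action on the columns of type `j` -/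
def colAct (j : J) (g : G) (v : ∀ x : (Σ i, Fin (d i)), a x.1 j) : ∀ x : (Σ i, Fin (d i)), a x.1 j :=
  fun x => ⟨(R g *ᵥ fun y => (v y : ∀ κ, L κ)) x, by
    refine Submodule.sum_mem _ fun y _ => ?_
    exact hG.mul _ _ _ _ _ (hR.mem g x y) (v y).2⟩

/-- the entries of `R` -/
def Rm (g : G) (x y : (Σ i, Fin (d i))) : a x.1 y.1 := ⟨R g x y, hR.mem g x y⟩

lemma colAct_apply (j : J) (g : G) (v : ∀ x : (Σ i, Fin (d i)), a x.1 j) (x : (Σ i, Fin (d i))) :
    colAct hG hR j g v x = ∑ l, ∑ s : Fin (d l), pr hG (Rm hR g x ⟨l, s⟩) (v ⟨l, s⟩) := by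
  apply Subtype.ext
  show (∑ y, R g x y * (v y : ∀ κ, L κ)) = _
  rw [Submodule.coe_sum, Fintype.sum_sigma]
  refine Finset.sum_congr rfl fun l _ => ?_
  rw [Submodule.coe_sum]
  rfl

lemma phj_Rm (g : G) (i : J) (p q : Fin (d i)) : phj hinj hG i (Rm hR g ⟨i, p⟩ ⟨i, q⟩) = ρ i g p q :=
  hR.diag g i p q _ (sel_spec hG (Rm hR g ⟨i, p⟩ ⟨i, q⟩))

/-- the diagonal part -/
lemma phj_eqv (j : J) (g : G) (v : ∀ x : (Σ i, Fin (d i)), a x.1 j) (q : Fin (d j)) :
    phj hinj hG j (colAct hG hR j g v ⟨j, q⟩) = ∑ s, ρ j g q s * phj hinj hG j (v ⟨j, s⟩) := by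
  rw [colAct_apply, map_sum, Finset.sum_eq_single j]
  · rw [map_sum]
    refine Finset.sum_congr rfl fun s _ => ?_
    rw [phj_mul, phj_Rm]
  · intro l _ hl
    rw [map_sum]
    exact Finset.sum_eq_zero fun s _ => phj_off hinj hG hl _ _
  · intro h; exact absurd (Finset.mem_univ j) h

/-- the off-diagonal part -/
lemma h_eqv {M : Type} [AddCommGroup M] [Module T M] [Module (T ⧸ I) M] [IsScalarTower T (T ⧸ I) M] {i j : J}
    (hij : i ≠ j) (h : (a i j ⧸ Rel I a i j) →ₗ[T] M) (g : G) (v : ∀ x : (Σ i, Fin (d i)), a x.1 j)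
    (p : Fin (d i)) :
    h (Submodule.Quotient.mk (colAct hG hR j g v ⟨i, p⟩)) =
      ∑ s, ρ i g p s • h (Submodule.Quotient.mk (v ⟨i, s⟩)) +
      ∑ s, phj hinj hG j (v ⟨j, s⟩) • h (Submodule.Quotient.mk (Rm hR g ⟨i, p⟩ ⟨j, s⟩)) := by
  have e0 : ∀ z : a i j, h (Submodule.Quotient.mk z) = (h ∘ₗ (Rel I a i j).mkQ) z := fun z => rfl
  rw [colAct_apply, e0, map_sum, Fintype.sum_eq_add i j hij]
  · congr 1
    · rw [map_sum]
      refine Finset.sum_congr rfl fun s _ => ?_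
      rw [← e0, h_left hinj hG, phj_Rm]
    · rw [map_sum]
      refine Finset.sum_congr rfl fun s _ => ?_
      rw [← e0, h_right hinj hG]
  · rintro l ⟨hl, hl'⟩
    rw [map_sum]
    refine Finset.sum_eq_zero fun s _ => ?_
    rw [← e0, h_zero hG h hl hl']

omit [Fintype J] in
/-- a column with prescribed entries of type `j` -/
lemma exists_col (j : J) (u : Fin (d j) → T ⧸ I) :
    ∃ v : ∀ x : (Σ i, Fin (d i)), a x.1 j, (∀ q, phj hinj hG j (v ⟨j, q⟩) = u q) ∧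
      ∀ x : (Σ i, Fin (d i)), x.1 ≠ j → v x = 0 := by
  choose t ht using fun q => Ideal.Quotient.mk_surjective (u q)
  have hm : ∀ (l : J) (_ : l = j) (c : T), algebraMap T (∀ κ, L κ) c ∈ a l j := by
    rintro l rfl c
    exact (hG.diag l _).2 ⟨c, rfl⟩
  refine ⟨fun x => if hx : x.1 = j then
    ⟨algebraMap T (∀ κ, L κ) (t (hx ▸ x.2)), hm _ hx _⟩ else 0, ?_, ?_⟩
  · intro q
    have h1 : (if hx : (⟨j, q⟩ : Σ i, Fin (d i)).1 = j then
      (⟨algebraMap T (∀ κ, L κ) (t (hx ▸ (⟨j, q⟩ : Σ i, Fin (d i)).2)), hm _ hx _⟩ :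
        a (⟨j, q⟩ : Σ i, Fin (d i)).1 j) else 0) = ⟨algebraMap T (∀ κ, L κ) (t q), hm _ rfl _⟩ :=
      dif_pos rfl
    show phj hinj hG j (if hx : (⟨j, q⟩ : Σ i, Fin (d i)).1 = j then
      (⟨algebraMap T (∀ κ, L κ) (t (hx ▸ (⟨j, q⟩ : Σ i, Fin (d i)).2)), hm _ hx _⟩ :
        a (⟨j, q⟩ : Σ i, Fin (d i)).1 j) else 0) = u q
    rw [h1, ← ht q]
    exact phj_of hinj hG _ _ rfl
  · intro x hx
    exact dif_neg hx

/-- the change of coordinates -/
def Th (a : J → J → Submodule T (∀ κ, L κ)) (Q : ∀ κ, Matrix (Σ i, Fin (d i)) (Σ i, Fin (d i)) (L κ)) (j : J) :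
    (∀ x : (Σ i, Fin (d i)), a x.1 j) →ₗ[T] ((Σ i, Fin (d i)) → ∀ κ, L κ) where
  toFun v x κ := (Q κ *ᵥ fun y => (v y : ∀ κ, L κ) κ) x
  map_add' v w := by
    funext x κ
    exact congrFun (Matrix.mulVec_add (Q κ) (fun y => (v y : ∀ κ, L κ) κ) (fun y => (w y : ∀ κ, L κ) κ)) x
  map_smul' c v := by
    funext x κ
    exact congrFun (Matrix.mulVec_smul (Q κ) c (fun y => (v y : ∀ κ, L κ) κ)) x

variable {r : ∀ κ, G →* Matrix (Σ i, Fin (d i)) (Σ i, Fin (d i)) (L κ)}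
  {P Q : ∀ κ, Matrix (Σ i, Fin (d i)) (Σ i, Fin (d i)) (L κ)}

omit hinj hG in
lemma Th_inj (hPQ : ∀ κ, P κ * Q κ = 1) (j : J) :
    Function.Injective (Th (d := d) a Q j) := by
  intro v w hvw
  funext x
  apply Subtype.ext
  funext κ
  have h1 : ∀ v : (∀ x : (Σ i, Fin (d i)), a x.1 j), (v x : ∀ κ, L κ) κ =
      (P κ *ᵥ fun y => Th (d := d) a Q j v y κ) x := by
    intro v
    show _ = (P κ *ᵥ (Q κ *ᵥ fun y => (v y : ∀ κ, L κ) κ)) x
    rw [Matrix.mulVec_mulVec, hPQ, Matrix.one_mulVec]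
  rw [h1 v, h1 w, hvw]

lemma Th_eqv (hQP : ∀ κ, Q κ * P κ = 1) (hPQr : ∀ g x y κ, R g x y κ = (P κ * r κ g * Q κ) x y) (j : J) (g : G)
    (v : ∀ x : (Σ i, Fin (d i)), a x.1 j) :
    fam r g *ᵥ (Th (d := d) a Q j v) = Th (d := d) a Q j (colAct hG hR j g v) := by
  funext x κ
  have h0 : (fam r g *ᵥ (Th (d := d) a Q j v)) x κ = (r κ g *ᵥ (Q κ *ᵥ fun y => (v y : ∀ κ, L κ) κ)) x := by
    show (∑ y, fam r g x y * Th (d := d) a Q j v y) κ = ∑ y, r κ g x y * (Q κ *ᵥ fun y => (v y : ∀ κ, L κ) κ) y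
    rw [Finset.sum_apply]
    rfl
  have h1 : (fun x => (R g *ᵥ fun y => (v y : ∀ κ, L κ)) x κ) =
      (P κ * r κ g * Q κ) *ᵥ fun y => (v y : ∀ κ, L κ) κ := by
    funext x
    show (∑ y, R g x y * (v y : ∀ κ, L κ)) κ = ∑ y, (P κ * r κ g * Q κ) x y * (v y : ∀ κ, L κ) κ
    rw [Finset.sum_apply]
    refine Finset.sum_congr rfl fun y _ => ?_
    rw [Pi.mul_apply, hPQr]
  rw [h0]
  show _ = (Q κ *ᵥ (fun x => (R g *ᵥ fun y => (v y : ∀ κ, L κ)) x κ)) x
  rw [h1, Matrix.mulVec_mulVec, Matrix.mulVec_mulVec, ← Matrix.mul_assoc, ← Matrix.mul_assoc, hQP, Matrix.one_mul]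

/-- the columns are in the class -/
lemma mem_col (Pc : Class T G) (hPQ : ∀ κ, P κ * Q κ = 1) (hQP : ∀ κ, Q κ * P κ = 1)
    (hPQr : ∀ g x y κ, R g x y κ = (P κ * r κ g * Q κ) x y)
    (hPc : ∀ (N : Submodule T ((Σ i, Fin (d i)) → ∀ κ, L κ)) (hs : ∀ g, ∀ v ∈ N, fam r g *ᵥ v ∈ N), N.FG →
      Pc.mem N (fun g v => ⟨fam r g *ᵥ (v : (Σ i, Fin (d i)) → ∀ κ, L κ), hs g v v.2⟩)) (j : J) :
    Pc.mem (∀ x : (Σ i, Fin (d i)), a x.1 j) (colAct hG hR j) := by
  have hs : ∀ g, ∀ v ∈ LinearMap.range (Th (d := d) a Q j), fam r g *ᵥ v ∈ LinearMap.range (Th (d := d) a Q j) := by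
    rintro g _ ⟨v, rfl⟩
    exact ⟨colAct hG hR j g v, (Th_eqv hG hR hQP hPQr j g v).symm⟩
  have hfg : (LinearMap.range (Th (d := d) a Q j)).FG := by
    have h1 : ∀ x : (Σ i, Fin (d i)), Module.Finite T (a x.1 j) := fun x => Module.Finite.iff_fg.2 (hG.fg x.1 j)
    rw [LinearMap.range_eq_map]
    exact Submodule.FG.map _ Module.Finite.fg_top
  have h2 := hPc _ hs hfg
  let e := LinearEquiv.ofInjective (Th (d := d) a Q j) (Th_inj hPQ j)
  refine Pc.quot _ _ _ _ (e.symm : LinearMap.range (Th (d := d) a Q j) →ₗ[T] _) ?_ e.symm.surjective h2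
  intro g v
  obtain ⟨w, rfl⟩ := e.surjective v
  show e.symm _ = colAct hG hR j g (e.symm (e w))
  rw [LinearEquiv.symm_apply_apply, LinearEquiv.symm_apply_eq]
  exact Subtype.ext (Th_eqv hG hR hQP hPQr j g w)

/-- the map from the columns -/
noncomputable def ff {M : Type} [AddCommGroup M] [Module T M] [Module (T ⧸ I) M] [IsScalarTower T (T ⧸ I) M] {i j : J}
    (h : (a i j ⧸ Rel I a i j) →ₗ[T] M) {n : ℕ} (m : Fin n → M) :
    ((∀ x : (Σ i, Fin (d i)), a x.1 j) × (Fin n → ∀ x : (Σ i, Fin (d i)), a x.1 i)) →ₗ[T]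
      ((Fin (d i) → M) × (Fin (d j) → T ⧸ I)) where
  toFun v := (fun p => h (Submodule.Quotient.mk (v.1 ⟨i, p⟩)) +
    ∑ s, phj hinj hG i (v.2 s ⟨i, p⟩) • m s, fun q => phj hinj hG j (v.1 ⟨j, q⟩))
  map_add' v w := by
    refine Prod.ext (funext fun p => ?_) (funext fun q => ?_)
    · show h (Submodule.Quotient.mk (v.1 ⟨i, p⟩ + w.1 ⟨i, p⟩)) +
        ∑ s, phj hinj hG i (v.2 s ⟨i, p⟩ + w.2 s ⟨i, p⟩) • m s =
        (h (Submodule.Quotient.mk (v.1 ⟨i, p⟩)) + ∑ s, phj hinj hG i (v.2 s ⟨i, p⟩) • m s) +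
        (h (Submodule.Quotient.mk (w.1 ⟨i, p⟩)) + ∑ s, phj hinj hG i (w.2 s ⟨i, p⟩) • m s)
      have e1 : ∑ s, phj hinj hG i (v.2 s ⟨i, p⟩ + w.2 s ⟨i, p⟩) • m s =
          ∑ s, phj hinj hG i (v.2 s ⟨i, p⟩) • m s + ∑ s, phj hinj hG i (w.2 s ⟨i, p⟩) • m s := by
        rw [← Finset.sum_add_distrib]
        refine Finset.sum_congr rfl fun s _ => ?_
        rw [map_add, add_smul]
      rw [e1, Submodule.Quotient.mk_add, map_add]
      abel
    · exact map_add (phj hinj hG j) _ _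
  map_smul' c v := by
    refine Prod.ext (funext fun p => ?_) (funext fun q => ?_)
    · show h (Submodule.Quotient.mk (c • v.1 ⟨i, p⟩)) +
        ∑ s, phj hinj hG i (c • v.2 s ⟨i, p⟩) • m s =
        c • (h (Submodule.Quotient.mk (v.1 ⟨i, p⟩)) + ∑ s, phj hinj hG i (v.2 s ⟨i, p⟩) • m s)
      have e1 : ∑ s, phj hinj hG i (c • v.2 s ⟨i, p⟩) • m s =
          c • ∑ s, phj hinj hG i (v.2 s ⟨i, p⟩) • m s := by
        rw [Finset.smul_sum]
        refine Finset.sum_congr rfl fun s _ => ?_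
        rw [map_smul, smul_assoc]
      rw [e1, Submodule.Quotient.mk_smul, map_smul, smul_add]
    · exact map_smul (phj hinj hG j) _ _

lemma ff_eqv {M : Type} [AddCommGroup M] [Module T M] [Module (T ⧸ I) M] [IsScalarTower T (T ⧸ I) M] {i j : J}
    (hij : i ≠ j) (h : (a i j ⧸ Rel I a i j) →ₗ[T] M) {n : ℕ} (m : Fin n → M) (g : G)
    (v : (∀ x : (Σ i, Fin (d i)), a x.1 j) × (Fin n → ∀ x : (Σ i, Fin (d i)), a x.1 i)) :
    ff hinj hG h m (colAct hG hR j g v.1, fun s => colAct hG hR i g (v.2 s)) =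
      extAct (ρ j) (ρ i) (fun g p q => h (Submodule.Quotient.mk (Rm hR g ⟨i, p⟩ ⟨j, q⟩))) g
        (ff hinj hG h m v) := by
  refine Prod.ext (funext fun p => ?_) (funext fun q => ?_)
  · show h (Submodule.Quotient.mk (colAct hG hR j g v.1 ⟨i, p⟩)) +
      ∑ s, phj hinj hG i (colAct hG hR i g (v.2 s) ⟨i, p⟩) • m s =
      ∑ q, ρ i g p q • (h (Submodule.Quotient.mk (v.1 ⟨i, q⟩)) +
        ∑ s, phj hinj hG i (v.2 s ⟨i, q⟩) • m s) +
      ∑ q, phj hinj hG j (v.1 ⟨j, q⟩) • h (Submodule.Quotient.mk (Rm hR g ⟨i, p⟩ ⟨j, q⟩))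
    rw [h_eqv hinj hG hR hij h]
    have e1 : ∑ s, phj hinj hG i (colAct hG hR i g (v.2 s) ⟨i, p⟩) • m s =
        ∑ q, ρ i g p q • ∑ s, phj hinj hG i (v.2 s ⟨i, q⟩) • m s := by
      have e2 : ∀ q, ρ i g p q • ∑ s, phj hinj hG i (v.2 s ⟨i, q⟩) • m s =
          ∑ s, (ρ i g p q * phj hinj hG i (v.2 s ⟨i, q⟩)) • m s := by
        intro q
        rw [Finset.smul_sum]
        refine Finset.sum_congr rfl fun s _ => ?_
        rw [mul_smul]
      rw [Finset.sum_congr rfl fun q _ => e2 q, Finset.sum_comm]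
      refine Finset.sum_congr rfl fun s _ => ?_
      rw [phj_eqv, Finset.sum_smul]
    have e3 : ∑ q, ρ i g p q • (h (Submodule.Quotient.mk (v.1 ⟨i, q⟩)) +
        ∑ s, phj hinj hG i (v.2 s ⟨i, q⟩) • m s) =
        ∑ q, ρ i g p q • h (Submodule.Quotient.mk (v.1 ⟨i, q⟩)) +
        ∑ q, ρ i g p q • ∑ s, phj hinj hG i (v.2 s ⟨i, q⟩) • m s := by
      rw [← Finset.sum_add_distrib]
      refine Finset.sum_congr rfl fun q _ => ?_
      rw [smul_add]
    rw [e1, e3]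
    abel
  · exact phj_eqv hinj hG hR j g v.1 q

omit [Fintype J] in
lemma ff_surj {M : Type} [AddCommGroup M] [Module T M] [Module (T ⧸ I) M] [IsScalarTower T (T ⧸ I) M] {i j : J}
    (hij : i ≠ j) (h : (a i j ⧸ Rel I a i j) →ₗ[T] M) {n : ℕ} (m : Fin n → M)
    (hm : Submodule.span T (Set.range m) = ⊤) :
    Function.Surjective (ff (d := d) hinj hG h m) := by
  rintro ⟨u, u'⟩
  have hc : ∀ p, ∃ c : Fin n → T, ∑ s, c s • m s = u p := by
    intro p
    have h1 : u p ∈ Submodule.span T (Set.range m) := by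
      rw [hm]
      trivial
    exact (Submodule.mem_span_range_iff_exists_fun T).1 h1
  choose c hc using hc
  obtain ⟨v, hv, hv0⟩ := exists_col (d := d) hinj hG j u'
  choose w hw hw0 using fun s => exists_col (d := d) hinj hG i fun p => Ideal.Quotient.mk I (c p s)
  refine ⟨(v, w), Prod.ext (funext fun p => ?_) (funext fun q => ?_)⟩
  · show h (Submodule.Quotient.mk (v ⟨i, p⟩)) + ∑ s, phj hinj hG i (w s ⟨i, p⟩) • m s = u p
    rw [hv0 ⟨i, p⟩ hij, Submodule.Quotient.mk_zero, map_zero, zero_add, ← hc p]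
    refine Finset.sum_congr rfl fun s _ => ?_
    rw [hw s p]
    exact mk_smul_M _ _
  · exact hv q

end main

/-- MEM -/
theorem t_MEM : S_MEM := by
  intro T G K J L _ _ _ _ _ _ _ I d ρ r P Q R a hinj hPQ hQP hPQr hG hR Pc hPc i j hij M _ _ _ _ _ h
  obtain ⟨n, m, hm⟩ := Module.Finite.exists_fin (R := T) (M := M)
  let jj : Option (Fin n) → J := fun o => o.elim j fun _ => i
  have hV : Pc.mem (∀ o : Option (Fin n), ∀ x : (Σ i, Fin (d i)), a x.1 (jj o))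
      (fun g v o => colAct hG hR (jj o) g (v o)) :=
    Pc.sum (Option (Fin n)) (fun o => ∀ x : (Σ i, Fin (d i)), a x.1 (jj o)) (fun o => colAct hG hR (jj o))
      fun o => mem_col hG hR Pc hPQ hQP hPQr hPc (jj o)
  let f0 : (∀ o : Option (Fin n), ∀ x : (Σ i, Fin (d i)), a x.1 (jj o)) →ₗ[T]
      ((∀ x : (Σ i, Fin (d i)), a x.1 j) × (Fin n → ∀ x : (Σ i, Fin (d i)), a x.1 i)) :=
    { toFun := fun v => (v none, fun s => v (some s))
      map_add' := fun v w => rfl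
      map_smul' := fun c v => rfl }
  refine Pc.quot _ _ _ _ (ff hinj hG h m ∘ₗ f0) ?_ ?_ hV
  · intro g v
    exact ff_eqv hinj hG hR hij h m g (v none, fun s => v (some s))
  · intro u
    obtain ⟨⟨v, w⟩, hvw⟩ := ff_surj (d := d) hinj hG hij h m hm u
    refine ⟨fun o => match o with
      | none => v
      | some s => w s, ?_⟩
    exact hvw

end Pool.Agent.H17.CF.MEM
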