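import Pool.Agent.H499.CF.Stm

/-!
# Job STAR: an idempotent in the kernel of `Φ` is zero (helper79)
-/

set_option autoImplicit false

namespace Pool.Agent.H79.CF

open Matrix IsLocalRing
open Pool.Agent.H499.CF

/-- an idempotent in the multiples of the maximal ideal is zero -/
theorem idem_zero {T N : Type} [CommRing T] [IsLocalRing T] [IsNoetherianRing T] [Ring N]
    [Algebra T N] [Module.Finite T N] (δ : N) (h : δ * δ = δ)
    (hm : δ ∈ maximalIdeal T • (⊤ : Submodule T N)) : δ = 0 := by
  set f : N →ₗ[T] N := LinearMap.mulLeft T δ with hf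
  have hfg : (LinearMap.range f).FG := IsNoetherian.noetherian _
  have hle : LinearMap.range f ≤ maximalIdeal T • LinearMap.range f := by
    rintro _ ⟨z, rfl⟩
    have h1 : f z = f (LinearMap.mulRight T z δ) := by
      rw [hf, LinearMap.mulLeft_apply, LinearMap.mulLeft_apply, LinearMap.mulRight_apply,
        ← mul_assoc, h]
    rw [h1]
    have h2 : LinearMap.mulRight T z δ ∈ maximalIdeal T • (⊤ : Submodule T N) := by
      have h3 : LinearMap.mulRight T z δ ∈
          (maximalIdeal T • (⊤ : Submodule T N)).map (LinearMap.mulRight T z) :=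
        Submodule.mem_map_of_mem hm
      rw [Submodule.map_smul''] at h3
      exact Submodule.smul_mono le_rfl le_top h3
    have h4 : f (LinearMap.mulRight T z δ) ∈ (maximalIdeal T • (⊤ : Submodule T N)).map f :=
      Submodule.mem_map_of_mem h2
    rw [Submodule.map_smul'', Submodule.map_top] at h4
    exact h4
  have hbot := Submodule.eq_bot_of_le_smul_of_le_jacobson_bot (maximalIdeal T) _ hfg hle
    (IsLocalRing.maximalIdeal_le_jacobson _)
  have h5 : f 1 ∈ LinearMap.range f := ⟨1, rfl⟩
  rw [hbot, Submodule.mem_bot, hf, LinearMap.mulLeft_apply, mul_one] at h5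
  exact h5

/-- lifting of one idempotent -/
theorem claim (hFIT : S_FIT) {T A N : Type} [CommRing T] [IsLocalRing T] [IsNoetherianRing T]
    [IsAdicComplete (maximalIdeal T) T] [Ring A] [Algebra T A] [Module.Finite T A] [Ring N]
    [Algebra T N] [Module.Finite T N] (Φ : A →ₐ[T] N) (f x : A) (hfx : f * x = 0)
    (hxf : x * f = 0) (hε : Φ x * Φ x = Φ x) :
    ∃ e' : A, e' * e' = e' ∧ f * e' = 0 ∧ e' * f = 0 ∧ Φ e' = Φ x := by
  obtain ⟨e', y, h1, h2, h3, h4, M, hM⟩ := hFIT T A x
  refine ⟨e', h1, ?_, ?_, ?_⟩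
  · rw [h2, ← mul_assoc, hfx, zero_mul]
  · rw [h3, mul_assoc, hxf, mul_zero]
  · have b1 : Φ x * Φ e' = Φ e' := by
      rw [h2, map_mul, ← mul_assoc, hε]
    have b2 : Φ e' * Φ x = Φ e' := by
      rw [h3, map_mul, mul_assoc, hε]
    have b3 : Φ e' * Φ e' = Φ e' := by rw [← map_mul, h1]
    set δ : N := Φ (x * (1 - e')) with hδ
    have b4 : δ = Φ x - Φ e' := by
      rw [hδ, map_mul, map_sub, map_one, mul_sub, mul_one, b1]
    have b5 : δ * δ = δ := by
      rw [b4, mul_sub, sub_mul, sub_mul, hε, b1, b2, b3, sub_self, sub_zero]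
    have b6 : δ ^ (M + 1) = δ := by
      have : ∀ n : ℕ, δ ^ (n + 1) = δ := by
        intro n
        induction n with
        | zero => rw [zero_add, pow_one]
        | succ n ih => rw [pow_succ, ih, b5]
      exact this M
    have b7 : δ ^ M ∈ maximalIdeal T • (⊤ : Submodule T N) := by
      have c1 : Φ.toLinearMap ((x * (1 - e')) ^ M) ∈
          (maximalIdeal T • (⊤ : Submodule T A)).map Φ.toLinearMap :=
        Submodule.mem_map_of_mem hM
      rw [Submodule.map_smul''] at c1
      have c2 := Submodule.smul_mono (le_refl (maximalIdeal T))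
        (le_top : Submodule.map Φ.toLinearMap (⊤ : Submodule T A) ≤ ⊤) c1
      rw [AlgHom.toLinearMap_apply, map_pow] at c2
      exact c2
    have b8 : δ ∈ maximalIdeal T • (⊤ : Submodule T N) := by
      have c1 : LinearMap.mulRight T δ (δ ^ M) ∈
          (maximalIdeal T • (⊤ : Submodule T N)).map (LinearMap.mulRight T δ) :=
        Submodule.mem_map_of_mem b7
      rw [Submodule.map_smul'', LinearMap.mulRight_apply, ← pow_succ, b6] at c1
      exact Submodule.smul_mono le_rfl le_top c1
    have b9 := idem_zero δ b5 b8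
    rw [b4, sub_eq_zero] at b9
    exact b9.symm

/-- lifting of a family of orthogonal idempotents -/
theorem family (hFIT : S_FIT) {T A N X : Type} [CommRing T] [IsLocalRing T] [IsNoetherianRing T]
    [IsAdicComplete (maximalIdeal T) T] [Ring A] [Algebra T A] [Module.Finite T A] [Ring N]
    [Algebra T N] [Module.Finite T N] [DecidableEq X] (Φ : A →ₐ[T] N)
    (hsurj : Function.Surjective Φ) (e : A) (he : e * e = e) (hΦe : Φ e = 0) (E : X → N)
    (hE : ∀ x, E x * E x = E x) (hE' : ∀ x y, x ≠ y → E x * E y = 0) (S : Finset X) :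
    ∃ u : X → A, (∀ x ∈ S, u x * u x = u x ∧ Φ (u x) = E x ∧ u x * e = 0 ∧ e * u x = 0) ∧
      ∀ x ∈ S, ∀ y ∈ S, x ≠ y → u x * u y = 0 := by
  induction S using Finset.induction_on with
  | empty => exact ⟨fun _ => 0, by simp, by simp⟩
  | insert x0 S hx0 ih =>
    obtain ⟨u, hu, huv⟩ := ih
    set f : A := e + ∑ x ∈ S, u x with hf
    have hef : e * f = e := by
      rw [hf, mul_add, he, Finset.mul_sum, Finset.sum_eq_zero fun x hx => (hu x hx).2.2.2,
        add_zero]
    have hfe : f * e = e := by
      rw [hf, add_mul, he, Finset.sum_mul, Finset.sum_eq_zero fun x hx => (hu x hx).2.2.1,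
        add_zero]
    have huf : ∀ x ∈ S, u x * f = u x := by
      intro x hx
      rw [hf, mul_add, (hu x hx).2.2.1, zero_add, Finset.mul_sum,
        Finset.sum_eq_single x (fun y hy hyx => huv x hx y hy (Ne.symm hyx))
          (fun h => absurd hx h), (hu x hx).1]
    have hfu : ∀ x ∈ S, f * u x = u x := by
      intro x hx
      rw [hf, add_mul, (hu x hx).2.2.2, zero_add, Finset.sum_mul,
        Finset.sum_eq_single x (fun y hy hyx => huv y hy x hx hyx)
          (fun h => absurd hx h), (hu x hx).1]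
    have hff : f * f = f := by
      have : f * f = e * f + ∑ x ∈ S, u x * f := by
        conv_lhs => rw [hf, add_mul, Finset.sum_mul]
      rw [this, hef, Finset.sum_congr rfl huf]
    have hΦf : Φ f = ∑ x ∈ S, E x := by
      rw [hf, map_add, hΦe, zero_add, map_sum]
      exact Finset.sum_congr rfl fun x hx => (hu x hx).2.1
    have hne : ∀ x ∈ S, x ≠ x0 := fun x hx h => hx0 (h ▸ hx)
    have hfE : Φ f * E x0 = 0 := by
      rw [hΦf, Finset.sum_mul]
      exact Finset.sum_eq_zero fun x hx => hE' x x0 (hne x hx)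
    have hEf : E x0 * Φ f = 0 := by
      rw [hΦf, Finset.mul_sum]
      exact Finset.sum_eq_zero fun x hx => hE' x0 x (Ne.symm (hne x hx))
    obtain ⟨z, hz⟩ := hsurj (E x0)
    have hf1 : f * (1 - f) = 0 := by rw [mul_sub, mul_one, hff, sub_self]
    have hf2 : (1 - f) * f = 0 := by rw [sub_mul, one_mul, hff, sub_self]
    have hΦx : Φ ((1 - f) * z * (1 - f)) = E x0 := by
      rw [map_mul, map_mul, hz, map_sub, map_one, sub_mul, one_mul, hfE, sub_zero, mul_sub,
        mul_one, hEf, sub_zero]
    obtain ⟨e', g1, g2, g3, g4⟩ := claim hFIT Φ f ((1 - f) * z * (1 - f))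
      (by rw [← mul_assoc, ← mul_assoc, hf1, zero_mul, zero_mul])
      (by rw [mul_assoc, hf2, mul_zero]) (by rw [hΦx]; exact hE x0)
    rw [hΦx] at g4
    have k1 : ∀ x ∈ S, u x * e' = 0 := by
      intro x hx
      rw [← huf x hx, mul_assoc, g2, mul_zero]
    have k2 : ∀ x ∈ S, e' * u x = 0 := by
      intro x hx
      rw [← hfu x hx, ← mul_assoc, g3, zero_mul]
    have k3 : e * e' = 0 := by rw [← hef, mul_assoc, g2, mul_zero]
    have k4 : e' * e = 0 := by rw [← hfe, ← mul_assoc, g3, zero_mul]
    have hup : ∀ x ∈ S, Function.update u x0 e' x = u x := fun x hx =>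
      Function.update_of_ne (hne x hx) _ _
    refine ⟨Function.update u x0 e', ?_, ?_⟩
    · intro x hx
      rcases Finset.mem_insert.1 hx with rfl | hx
      · rw [Function.update_self]
        exact ⟨g1, g4, k4, k3⟩
      · rw [hup x hx]
        exact hu x hx
    · intro x hx y hy hxy
      rcases Finset.mem_insert.1 hx with hx1 | hx1
      · rcases Finset.mem_insert.1 hy with hy1 | hy1
        · exact absurd (hx1.trans hy1.symm) hxy
        · rw [hx1, Function.update_self, hup y hy1]
          exact k2 y hy1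
      · rcases Finset.mem_insert.1 hy with hy1 | hy1
        · rw [hy1, Function.update_self, hup x hx1]
          exact k1 x hx1
        · rw [hup x hx1, hup y hy1]
          exact huv x hx1 y hy1 hxy

/-- the ranks -/
theorem rank_arg {F X : Type} [Field F] [Fintype X] [DecidableEq X] (e : Matrix X X F)
    (u : X → Matrix X X F) (hu : ∀ x, u x * u x = u x) (hu0 : ∀ x, u x ≠ 0)
    (huv : ∀ x y, x ≠ y → u x * u y = 0) (he : ∀ x, e * u x = 0) : e = 0 := by
  have h1 : ∀ x, ∃ v, u x *ᵥ v ≠ 0 := by
    intro x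
    by_contra hcon
    push Not at hcon
    apply hu0 x
    have h2 : Matrix.toLin' (u x) = 0 := by
      refine LinearMap.ext fun v => ?_
      rw [Matrix.toLin'_apply, hcon v, LinearMap.zero_apply]
    exact (map_eq_zero_iff _ Matrix.toLin'.injective).1 h2
  choose v hv using h1
  set w : X → X → F := fun x => u x *ᵥ v x with hw
  have hw1 : ∀ x, u x *ᵥ w x = w x := by
    intro x
    rw [hw]
    simp only
    rw [Matrix.mulVec_mulVec, hu]
  have hw2 : ∀ x y, y ≠ x → u y *ᵥ w x = 0 := by
    intro x y hyx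
    rw [hw]
    simp only
    rw [Matrix.mulVec_mulVec, huv y x hyx, Matrix.zero_mulVec]
  have hw3 : ∀ x, e *ᵥ w x = 0 := by
    intro x
    rw [hw]
    simp only
    rw [Matrix.mulVec_mulVec, he, Matrix.zero_mulVec]
  have hli : LinearIndependent F w := by
    rw [Fintype.linearIndependent_iff]
    intro g hg y
    have h3 : Matrix.toLin' (u y) (∑ x, g x • w x) = 0 := by rw [hg, map_zero]
    rw [map_sum, Finset.sum_eq_single y] at h3
    · rw [map_smul, Matrix.toLin'_apply, hw1] at h3
      exact (smul_eq_zero.1 h3).resolve_right (hv y)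
    · intro x _ hxy
      rw [map_smul, Matrix.toLin'_apply, hw2 x y (Ne.symm hxy), smul_zero]
    · intro h
      exact absurd (Finset.mem_univ _) h
  have hspan : Submodule.span F (Set.range w) = ⊤ :=
    hli.span_eq_top_of_card_eq_finrank' (by rw [Module.finrank_fintype_fun_eq_card])
  have h4 : Matrix.toLin' e = 0 := by
    refine LinearMap.ext_on hspan ?_
    rintro _ ⟨x, rfl⟩
    rw [Matrix.toLin'_apply, hw3, LinearMap.zero_apply]
  exact (map_eq_zero_iff _ Matrix.toLin'.injective).1 h4

/-- **STAR.** -/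
theorem star (h1 : S_FIT) : S_STAR := by
  intro T K J L _ _ _ _ _ _ _ _ I d A Φ hfin hI hsurj htr e he hΦe
  -- the diagonal idempotents
  set E : (Σ i, Fin (d i)) → (∀ i, Matrix (Fin (d i)) (Fin (d i)) (T ⧸ I)) :=
    fun x => Pi.single x.1 (Matrix.single x.2 x.2 1) with hE
  have hE1 : ∀ x, E x * E x = E x := by
    intro x
    rw [hE]
    simp only
    rw [← Pi.single_mul, Matrix.single_mul_single_same, one_mul]
  have hE2 : ∀ x y, x ≠ y → E x * E y = 0 := by
    rintro ⟨i, p⟩ ⟨j, q⟩ hxy
    rw [hE]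
    simp only
    by_cases hij : i = j
    · subst hij
      rw [← Pi.single_mul, Matrix.single_mul_single_of_ne, Pi.single_zero]
      intro hpq
      exact hxy (by rw [hpq])
    · funext l
      rw [Pi.mul_apply, Pi.zero_apply]
      by_cases hl : l = i
      · have : l ≠ j := fun h => hij (hl ▸ h)
        rw [Pi.single_eq_of_ne this, mul_zero]
      · rw [Pi.single_eq_of_ne hl, zero_mul]
  have hE3 : ∀ x, ∑ i, (E x i).trace = 1 := by
    rintro ⟨j, p⟩
    rw [Finset.sum_eq_single j]
    · rw [hE]
      simp only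
      rw [Pi.single_eq_same, Matrix.trace_single_eq_same]
    · intro i _ hij
      rw [hE]
      simp only
      rw [Pi.single_eq_of_ne hij, Matrix.trace_zero]
    · intro h
      exact absurd (Finset.mem_univ _) h
  have hfinN : Module.Finite T (∀ i, Matrix (Fin (d i)) (Fin (d i)) (T ⧸ I)) :=
    inferInstanceAs (Module.Finite T (∀ i, Fin (d i) → Fin (d i) → T ⧸ I))
  obtain ⟨u, hu, huv⟩ := family h1 Φ hsurj e he hΦe E hE1 hE2 Finset.univ
  -- the components
  apply Subtype.ext
  change (e : Matrix (Σ i, Fin (d i)) (Σ i, Fin (d i)) (∀ κ, L κ)) = 0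
  have key : ∀ κ, (Pi.evalRingHom L κ).mapMatrix
      (e : Matrix (Σ i, Fin (d i)) (Σ i, Fin (d i)) (∀ κ, L κ)) = 0 := by
    intro κ
    refine rank_arg _ (fun x => (Pi.evalRingHom L κ).mapMatrix
      (u x : Matrix (Σ i, Fin (d i)) (Σ i, Fin (d i)) (∀ κ, L κ))) ?_ ?_ ?_ ?_
    · intro x
      rw [← map_mul]
      congr 1
      exact congrArg Subtype.val (hu x (Finset.mem_univ _)).1
    · intro x h0
      obtain ⟨s, hs1, hs2⟩ := htr (u x)
      rw [(hu x (Finset.mem_univ _)).2.1, hE3] at hs2
      have hsu : IsUnit s := by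
        by_contra hns
        have h2 : s ∈ maximalIdeal T := (IsLocalRing.mem_maximalIdeal s).2 hns
        have h3 : s - 1 ∈ I := by
          rw [← Ideal.Quotient.eq_zero_iff_mem, map_sub, map_one, hs2, sub_self]
        have h4 : s - 1 ∈ maximalIdeal T := IsLocalRing.le_maximalIdeal hI h3
        have h5 : (1 : T) ∈ maximalIdeal T := by
          have := (maximalIdeal T).sub_mem h2 h4
          rwa [sub_sub_cancel] at this
        exact (Ideal.ne_top_iff_one _).1 (Ideal.IsPrime.ne_top inferInstance) h5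
      have h6 : algebraMap T (L κ) s ≠ 0 := (hsu.map (algebraMap T (L κ))).ne_zero
      apply h6
      have h7 := congrFun hs1 κ
      have h8 : (u x : Matrix (Σ i, Fin (d i)) (Σ i, Fin (d i)) (∀ κ, L κ)).trace κ =
          ((Pi.evalRingHom L κ).mapMatrix
            (u x : Matrix (Σ i, Fin (d i)) (Σ i, Fin (d i)) (∀ κ, L κ))).trace := by
        rw [Matrix.trace, Matrix.trace, Finset.sum_apply]
        rfl
      have h9 : (Pi.evalRingHom L κ).mapMatrix
            (u x : Matrix (Σ i, Fin (d i)) (Σ i, Fin (d i)) (∀ κ, L κ)) = 0 := h0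
      rw [h8, h9, Matrix.trace_zero] at h7
      exact h7.symm
    · intro x y hxy
      rw [← map_mul]
      have h2 := congrArg Subtype.val (huv x (Finset.mem_univ _) y (Finset.mem_univ _) hxy)
      have h3 : (u x : Matrix (Σ i, Fin (d i)) (Σ i, Fin (d i)) (∀ κ, L κ)) * u y = 0 := h2
      rw [h3, map_zero]
    · intro x
      rw [← map_mul]
      have h2 := congrArg Subtype.val (hu x (Finset.mem_univ _)).2.2.2
      have h3 : (e : Matrix (Σ i, Fin (d i)) (Σ i, Fin (d i)) (∀ κ, L κ)) * u x = 0 := h2
      rw [h3, map_zero]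
  ext x y κ
  have h2 := congrFun (congrFun (key κ) x) y
  exact h2

end Pool.Agent.H79.CF
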