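import Pool.Agent.H499.CF.Rix
import Pool.Agent.H499.CF.LOC
import Pool.Agent.H499.CF.FIT
import Pool.Agent.H499.CF.STAR
import Pool.Agent.H499.CF.GMA
import Pool.Agent.H499.CF.FITT
import Pool.Agent.H499.CF.EXT
import Pool.Agent.H499.CF.MEM
import Pool.Agent.H499.CF.PHI
import Pool.Agent.H499.CF.NAK
import Pool.Agent.H499.CD.LIFT
import Pool.Agent.H499.CD.STD
import Pool.Agent.H499.CD.PERM

/-!
# Fitting ideals of Selmer groups over general coefficient rings: the statements of the jobs, proved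
-/

set_option autoImplicit false

namespace Pool.Agent.H499.CF

theorem t_GMA : S_GMA :=
  Pool.Agent.H686.CF.gma Pool.Agent.H370.CF.PHI Pool.Agent.H105.CF.FIT.fit
    (Pool.Agent.H79.CF.star Pool.Agent.H105.CF.FIT.fit) Pool.Agent.H181.CD.lift Pool.Agent.H189.CD.std

theorem t_FITT : S_FITT := Pool.Agent.H176.CF.FITT.fitt Pool.Agent.H628.CD.PERM.t_PERM

theorem t_EXT : S_EXT := Pool.Agent.H962.CF.t_EXT

theorem t_MEM : S_MEM := Pool.Agent.H17.CF.MEM.t_MEM

theorem t_LOC : S_LOC := Pool.Agent.H643.CF.loc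

end Pool.Agent.H499.CF
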