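import Pool.Agent.H499.CF.Core
import Pool.Agent.H499.CD.Gal

/-!
# Fitting ideals of Selmer groups over general coefficient rings: the main theorem in terms of matrices
-/

set_option autoImplicit false

namespace Pool.Agent.H499.CF

open Matrix IsLocalRing

/-- the length at `𝔭` of a module over a `Λ`-algebra -/
noncomputable def multAt {Λ R : Type} [CommRing Λ] [CommRing R] [Algebra Λ R] (𝔭 : Ideal Λ) [𝔭.IsPrime] (X : Type)
    [AddCommGroup X] [Module R X] : ℕ∞ :=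
  letI := Module.compHom X (algebraMap Λ R)
  lenAt 𝔭 X

/-- the lengths at `𝔭` -/
theorem loc_mult (hLOC : S_LOC) {Λ R ι : Type} [CommRing Λ] [CommRing R] [Algebra Λ R] (𝔭 : Ideal Λ) [𝔭.IsPrime]
    [IsDomain (Localization.AtPrime 𝔭)] [IsDiscreteValuationRing (Localization.AtPrime 𝔭)] (s : Finset ι)
    (X : ι → Type) [∀ p, AddCommGroup (X p)] [∀ p, Module R (X p)] [∀ p, Module.Finite R (X p)]
    (hsurj : Function.Surjective (algebraMap Λ R)) (h : ∏ p ∈ s, Fitt R (X p) = ⊥) :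
    multAt (R := R) 𝔭 R ≤ ∑ p ∈ s, multAt (R := R) 𝔭 (X p) := by
  classical
  let _ : ∀ p : s, Module Λ (X p) := fun p => Module.compHom (X p) (algebraMap Λ R)
  have : ∀ p : s, IsScalarTower Λ R (X p) := fun p => ⟨fun a b x => by
    show (a • b) • x = (algebraMap Λ R a) • (b • x)
    rw [Algebra.smul_def, mul_smul]⟩
  have h1 : ∏ p : s, Fitt R (X p) = ⊥ := by
    rw [← h]
    exact Finset.prod_coe_sort s (fun p => Fitt R (X p))
  have h2 := hLOC Λ R s 𝔭 (fun p => X p) hsurj h1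
  have h3 : multAt (R := R) 𝔭 R = lenAt 𝔭 R := by
    have h4 : Module.compHom R (algebraMap Λ R) = (Algebra.toModule : Module Λ R) := by
      refine Module.ext ?_
      funext a x
      exact (Algebra.smul_def a x).symm
    unfold multAt
    rw [h4]
  rw [h3, ← Finset.sum_coe_sort]
  exact h2

section

variable {T G K J : Type} {L : K → Type} [CommRing T] [IsLocalRing T] [IsNoetherianRing T]
  [IsAdicComplete (maximalIdeal T) T] [Group G] [Fintype K] [Nonempty K] [∀ κ, Field (L κ)] [∀ κ, Algebra T (L κ)]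
  [Fintype J] [DecidableEq J]

/-- the main theorem in terms of matrices -/
theorem main (hGMA : S_GMA) (hFITT : S_FITT) (hEXT : S_EXT) (hMEM : S_MEM) {I : Ideal T} {d : J → ℕ}
    {ρ : ∀ i, G →* Matrix (Fin (d i)) (Fin (d i)) (T ⧸ I)}
    {r : ∀ κ, G →* Matrix (Σ i, Fin (d i)) (Σ i, Fin (d i)) (L κ)} {t : G → T} (H : Hyp I ρ r t) (Pc : Class T G)
    (hP : ∀ (N : Submodule T ((Σ i, Fin (d i)) → ∀ κ, L κ)) (hs : ∀ g, ∀ v ∈ N, fam r g *ᵥ v ∈ N), N.FG →
      Pc.mem N (fun g v => ⟨fam r g *ᵥ (v : (Σ i, Fin (d i)) → ∀ κ, L κ), hs g v v.2⟩)) :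
    ∃ (X : J → J → Type) (_ : ∀ i j, AddCommGroup (X i j)) (_ : ∀ i j, Module T (X i j))
      (_ : ∀ i j, Module (T ⧸ I) (X i j)) (_ : ∀ i j, IsScalarTower T (T ⧸ I) (X i j))
      (c : ∀ i j, G → Fin (d i) → Fin (d j) → X i j),
      (∀ i j, Module.Finite (T ⧸ I) (X i j)) ∧
      (∀ i j, i ≠ j → ∀ (M : Type) [AddCommGroup M] [Module T M] [Module (T ⧸ I) M] [IsScalarTower T (T ⧸ I) M]
        (h : X i j →ₗ[T] M), IsCocycle (ρ j) (ρ i) (fun g p q => h (c i j g p q)) ∧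
          (IsCoboundary (ρ j) (ρ i) (fun g p q => h (c i j g p q)) → h = 0)) ∧
      (∀ i j, i ≠ j → ∀ (M : Type) [AddCommGroup M] [Module T M] [Module (T ⧸ I) M] [IsScalarTower T (T ⧸ I) M]
        [Module.Finite T M] (h : X i j →ₗ[T] M),
          Pc.mem ((Fin (d i) → M) × (Fin (d j) → T ⧸ I)) (extAct (ρ j) (ρ i) (fun g p q => h (c i j g p q)))) ∧
      ∀ A : Finset J, A.Nonempty → Aᶜ.Nonempty → ∏ p ∈ A ×ˢ Aᶜ, Fitt (T ⧸ I) (X p.1 p.2) = ⊥ := by
  obtain ⟨P, Q, a, R, hPQ, hQP, hR, hG, hGR⟩ := hGMA T G K J L I d ρ r t H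
  let mX : ∀ i j, Module (T ⧸ I) (a i j ⧸ Rel I a i j) := fun i j => modX I a i j
  have mS : ∀ i j, IsScalarTower T (T ⧸ I) (a i j ⧸ Rel I a i j) := fun i j =>
    (tors I a i j).isScalarTower
  refine ⟨fun i j => a i j ⧸ Rel I a i j, fun i j => inferInstance, fun i j => inferInstance, mX, mS,
    fun i j g p q => Submodule.Quotient.mk ⟨R g ⟨i, p⟩ ⟨j, q⟩, hGR.mem g ⟨i, p⟩ ⟨j, q⟩⟩, ?_, ?_, ?_, ?_⟩
  · intro i j
    have h1 : Module.Finite T (a i j) := Module.Finite.iff_fg.2 (hG.fg i j)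
    have h2 : Module.Finite T (a i j ⧸ Rel I a i j) := inferInstance
    exact Module.Finite.of_restrictScalars_finite T (T ⧸ I) _
  · intro i j hij M _ _ _ _ h
    exact hEXT T G K J L I d ρ R a H.inj H.pos hG hGR i j hij M h
  · intro i j hij M _ _ _ _ _ h
    exact hMEM T G K J L I d ρ r P Q R a H.inj hPQ hQP hR hG hGR Pc hP i j hij M h
  · intro A hA hA'
    refine fitt_quot I (A ×ˢ Aᶜ) (fun p => a p.1 p.2 ⧸ Rel I a p.1 p.2) ?_
    have h1 := hFITT T K J L I a H.inj hG A hA hA'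
    rw [← Finset.prod_product' A Aᶜ (fun i j => Fitt T (a i j ⧸ Rel I a i j))] at h1
    exact h1

end

end Pool.Agent.H499.CF
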