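import Pool.Agent.H499.CF.Stm

/-!
# Fitting ideals of Selmer groups over general coefficient rings: the assembly
-/

set_option autoImplicit false

namespace Pool.Agent.H499.CF

open Matrix IsLocalRing

section

variable {T K J : Type} {L : K → Type} [CommRing T] [∀ κ, Field (L κ)] [∀ κ, Algebra T (L κ)]

theorem tors (I : Ideal T) (a : J → J → Submodule T (∀ κ, L κ)) (i j : J) :
    Module.IsTorsionBySet T (a i j ⧸ Rel I a i j) I := by
  rw [Module.isTorsionBySet_iff_subset_annihilator]
  intro s hs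
  rw [SetLike.mem_coe, Module.mem_annihilator]
  intro x
  obtain ⟨y, rfl⟩ := Submodule.Quotient.mk_surjective _ x
  rw [← Submodule.Quotient.mk_smul, Submodule.Quotient.mk_eq_zero]
  exact Submodule.subset_span (Or.inr ⟨s, hs, y, rfl⟩)

/-- the `T / I`-module structure -/
noncomputable def modX (I : Ideal T) (a : J → J → Submodule T (∀ κ, L κ)) (i j : J) :
    Module (T ⧸ I) (a i j ⧸ Rel I a i j) := (tors I a i j).module

end

/-- the Fitting ideals over `T / I` -/
theorem fitt_quot {T ι : Type} [CommRing T] (I : Ideal T) (s : Finset ι) (X : ι → Type) [∀ p, AddCommGroup (X p)]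
    [∀ p, Module T (X p)] [∀ p, Module (T ⧸ I) (X p)] [∀ p, IsScalarTower T (T ⧸ I) (X p)]
    (h : ∏ p ∈ s, Fitt T (X p) ≤ I) : ∏ p ∈ s, Fitt (T ⧸ I) (X p) = ⊥ := by
  have h1 : ∀ p, Fitt (T ⧸ I) (X p) ≤ (Fitt T (X p)).map (Ideal.Quotient.mk I) := by
    intro p
    refine Ideal.span_le.2 ?_
    rintro z ⟨m, y, C, hy, hC, rfl⟩
    choose D hD using fun p q => Ideal.Quotient.mk_surjective (C p q)
    have h2 : C = (Matrix.of D).map (Ideal.Quotient.mk I) := by
      ext p q
      exact (hD p q).symm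
    rw [h2, ← RingHom.mapMatrix_apply, ← RingHom.map_det]
    refine Ideal.mem_map_of_mem _ (Ideal.subset_span ⟨m, y, Matrix.of D, ?_, ?_, rfl⟩)
    · rw [eq_top_iff]
      rintro x -
      have h3 : x ∈ Submodule.span (T ⧸ I) (Set.range y) := by
        rw [hy]
        trivial
      rw [Submodule.mem_span_range_iff_exists_fun] at h3 ⊢
      obtain ⟨c, rfl⟩ := h3
      choose c' hc' using fun q => Ideal.Quotient.mk_surjective (c q)
      refine ⟨c', Finset.sum_congr rfl fun q _ => ?_⟩
      rw [← hc', ← Ideal.Quotient.algebraMap_eq, algebraMap_smul]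
    · intro p
      refine Eq.trans (Finset.sum_congr rfl fun q _ => ?_) (hC p)
      rw [← hD, ← Ideal.Quotient.algebraMap_eq, algebraMap_smul]
      rfl
  have h2 : ∏ p ∈ s, Fitt (T ⧸ I) (X p) ≤ (∏ p ∈ s, Fitt T (X p)).map (Ideal.Quotient.mk I) := by
    rw [← Ideal.mapHom_apply, map_prod]
    exact Finset.prod_le_prod' fun p _ => h1 p
  rw [eq_bot_iff]
  refine h2.trans ((Ideal.map_mono h).trans ?_)
  rw [Ideal.map_quotient_self]

end Pool.Agent.H499.CF
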