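import Pool.Agent.H499.CF.Asm
import Pool.Agent.H499.CF.NAK
import Pool.Agent.H499.CD.BURN

/-!
# Fitting ideals of Selmer groups over general coefficient rings: change of the index set, residual conditions
-/

set_option autoImplicit false

namespace Pool.Agent.H499.CF

open Matrix IsLocalRing

section reindex

variable {O G : Type} [CommRing O] [Group G] {X Y : Type} [Fintype X] [DecidableEq X] [Fintype Y] [DecidableEq Y]

/-- change of the index set -/
def rix (e : X ≃ Y) (r : G →* Matrix X X O) : G →* Matrix Y Y O where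
  toFun g := (r g).submatrix e.symm e.symm
  map_one' := by rw [map_one, Matrix.submatrix_one_equiv]
  map_mul' g h := by rw [map_mul, Matrix.submatrix_mul_equiv]

theorem rix_trace (e : X ≃ Y) (r : G →* Matrix X X O) (g : G) : (rix e r g).trace = (r g).trace :=
  Fintype.sum_equiv e.symm _ _ fun _ => rfl

theorem rix_span (e : X ≃ Y) (r : G →* Matrix X X O) (h : Submodule.span O (Set.range r) = ⊤) :
    Submodule.span O (Set.range (rix e r)) = ⊤ := by
  have h1 : Set.range (rix e r) = (Matrix.reindexLinearEquiv O O e e) '' Set.range r := by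
    rw [← Set.range_comp]
    rfl
  have h2 : Submodule.span O ((Matrix.reindexLinearEquiv O O e e) '' Set.range r) =
      (Submodule.span O (Set.range r)).map (Matrix.reindexLinearEquiv O O e e : Matrix X X O →ₗ[O] Matrix Y Y O) :=
    (Submodule.map_span _ _).symm
  rw [h1, h2, h, Submodule.map_top]
  exact LinearEquiv.range _

end reindex

section res

variable {T G J : Type} [CommRing T] [IsLocalRing T] [Group G] [Fintype J] [DecidableEq J]

/-- the joint span over `T / I` -/
theorem joint_span {I : Ideal T} (hI : I ≠ ⊤) {d : J → ℕ} (ρ : ∀ i, G →* Matrix (Fin (d i)) (Fin (d i)) (T ⧸ I))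
    (hd : ∀ i, 0 < d i)
    (h1 : ∀ (k : Type) [Field k] (π : T ⧸ I →+* k), Function.Surjective π → ∀ i,
      Submodule.span k (Set.range fun g => (ρ i g).map π) = ⊤)
    (h2 : ∀ (k : Type) [Field k] (π : T ⧸ I →+* k), Function.Surjective π → ∀ i j, i ≠ j →
      ∃ g, π (ρ i g).trace ≠ π (ρ j g).trace) :
    Submodule.span (T ⧸ I) (Set.range fun (g : G) i => ρ i g) = ⊤ := by
  have hle : I ≤ maximalIdeal T := IsLocalRing.le_maximalIdeal hI
  have : Nontrivial (T ⧸ I) := Ideal.Quotient.nontrivial_iff.2 hI
  have : IsLocalRing (T ⧸ I) := IsLocalRing.of_surjective' (Ideal.Quotient.mk I) Ideal.Quotient.mk_surjective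
  set π : T ⧸ I →+* ResidueField T := Ideal.Quotient.lift I (residue T) (fun a ha => by
    rw [residue_eq_zero_iff]
    exact hle ha) with hπ
  have hs : Function.Surjective π := by
    intro x
    obtain ⟨y, rfl⟩ := residue_surjective x
    exact ⟨Ideal.Quotient.mk I y, rfl⟩
  refine Pool.Agent.H396.CF.nak (T ⧸ I) (ResidueField T) G J π d ρ hs ?_
  exact Pool.Agent.H703.CD.burn (ResidueField T) G J d
    (fun i => ((π.mapMatrix : Matrix (Fin (d i)) (Fin (d i)) (T ⧸ I) →+* _).toMonoidHom.comp (ρ i))) hd
    (fun i => h1 _ π hs i) (fun i j hij => by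
      obtain ⟨g, hg⟩ := h2 _ π hs i j hij
      refine ⟨g, ?_⟩
      have h3 : ∀ i, (((π.mapMatrix : Matrix (Fin (d i)) (Fin (d i)) (T ⧸ I) →+* _).toMonoidHom.comp (ρ i)) g).trace =
          π (ρ i g).trace := fun i => (AddMonoidHom.map_trace (π : (T ⧸ I) →+* _) (ρ i g)).symm
      rw [h3, h3]
      exact hg)

end res

end Pool.Agent.H499.CF
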