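import Pool.Agent.H499.CD.Stm

/-!
# Fitting ideals of Selmer groups over general coefficient rings, several pieces: definitions and the jobs

`T` is a complete Noetherian local ring, contained in a finite product of fields `L κ`, `G` a group,
`r κ : G → GL_X(L κ)` absolutely irreducible representations with traces in `T`, `I` an ideal of `T`,
`ρ i : G → GL_{d i}(T / I)` representations with `tr r = ∑ tr ρ i` modulo `I`.
-/

set_option autoImplicit false

namespace Pool.Agent.H499.CF

open Matrix IsLocalRing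

section defs

variable {T G K J : Type} {L : K → Type} [CommRing T] [Group G] [∀ κ, Field (L κ)] [∀ κ, Algebra T (L κ)]

/-- the family `(r κ)` as a representation with values in matrices over `∏ L κ` -/
def fam {X : Type} [Fintype X] [DecidableEq X] (r : ∀ κ, G →* Matrix X X (L κ)) : G →* Matrix X X (∀ κ, L κ) where
  toFun g := Matrix.of fun x y κ => r κ g x y
  map_one' := by
    ext x y κ
    show r κ 1 x y = (1 : Matrix X X (∀ κ, L κ)) x y κ
    rw [map_one, Matrix.one_apply, Matrix.one_apply]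
    split_ifs <;> rfl
  map_mul' g h := by
    ext x y κ
    show r κ (g * h) x y = ((Matrix.of fun x y κ => r κ g x y) * (Matrix.of fun x y κ => r κ h x y) :
      Matrix X X (∀ κ, L κ)) x y κ
    rw [map_mul, Matrix.mul_apply, Matrix.mul_apply, Finset.sum_apply]
    rfl

/-- the hypotheses -/
structure Hyp [Fintype J] [DecidableEq J] (I : Ideal T) {d : J → ℕ}
    (ρ : ∀ i, G →* Matrix (Fin (d i)) (Fin (d i)) (T ⧸ I))
    (r : ∀ κ, G →* Matrix (Σ i, Fin (d i)) (Σ i, Fin (d i)) (L κ)) (t : G → T) : Prop where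
  inj : ∀ x : T, (∀ κ, algebraMap T (L κ) x = 0) → x = 0
  ne_top : I ≠ ⊤
  pos : ∀ i, 0 < d i
  span : Submodule.span (T ⧸ I) (Set.range fun (g : G) i => ρ i g) = ⊤
  irr : ∀ κ, Submodule.span (L κ) (Set.range (r κ)) = ⊤
  tr : ∀ g κ, algebraMap T (L κ) (t g) = (r κ g).trace
  tr_eq : ∀ g, Ideal.Quotient.mk I (t g) = ∑ i, (ρ i g).trace

/-- a family of submodules `a i j` of `∏ L κ` (the entries of a generalised matrix algebra over `T`) -/
structure GMA (I : Ideal T) (a : J → J → Submodule T (∀ κ, L κ)) : Prop where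
  diag : ∀ i x, x ∈ a i i ↔ ∃ s : T, algebraMap T (∀ κ, L κ) s = x
  mul : ∀ i j l x y, x ∈ a i j → y ∈ a j l → x * y ∈ a i l
  ker : ∀ i j, i ≠ j → ∀ x y (s : T), x ∈ a i j → y ∈ a j i → algebraMap T (∀ κ, L κ) s = x * y → s ∈ I
  ne : ∀ i j κ, ∃ x ∈ a i j, x κ ≠ 0
  fg : ∀ i j, (a i j).FG

/-- `R` has its entries in the GMA, the diagonal blocks are the `ρ i`, and it generates the GMA -/
structure GRep [Fintype J] [DecidableEq J] {I : Ideal T} {d : J → ℕ}
    (ρ : ∀ i, G →* Matrix (Fin (d i)) (Fin (d i)) (T ⧸ I))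
    (R : G →* Matrix (Σ i, Fin (d i)) (Σ i, Fin (d i)) (∀ κ, L κ)) (a : J → J → Submodule T (∀ κ, L κ)) : Prop where
  mem : ∀ g x y, R g x y ∈ a x.1 y.1
  diag : ∀ g i p q (s : T), algebraMap T (∀ κ, L κ) s = R g ⟨i, p⟩ ⟨i, q⟩ → Ideal.Quotient.mk I s = ρ i g p q
  span : ∀ x y, ∀ t ∈ a x.1 y.1, ∃ c : G →₀ T, (c.sum fun g s => s • R g) = Matrix.single x y t

/-- the submodule of `a i j` generated by the products `(a i l)(a l j)`, `l ≠ i, j`, and by `I (a i j)` -/
def Rel (I : Ideal T) (a : J → J → Submodule T (∀ κ, L κ)) (i j : J) : Submodule T (a i j) :=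
  Submodule.span T {y | (∃ l, l ≠ i ∧ l ≠ j ∧ ∃ u ∈ a i l, ∃ v ∈ a l j, (y : ∀ κ, L κ) = u * v) ∨
    ∃ s ∈ I, ∃ z : a i j, y = s • z}

end defs

section modules

variable {R : Type} [CommRing R]

/-- the Fitting ideal of `X`: generated by the determinants of the square matrices of relations between the members of
finite systems of generators -/
def Fitt (R X : Type) [CommRing R] [AddCommGroup X] [Module R X] : Ideal R :=
  Ideal.span {z | ∃ (m : ℕ) (y : Fin m → X) (C : Matrix (Fin m) (Fin m) R),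
    Submodule.span R (Set.range y) = ⊤ ∧ (∀ p, ∑ q, C p q • y q = 0) ∧ z = C.det}

/-- the product of a matrix over `R` and a matrix over an `R`-module -/
def lmul {a b M : Type} [Fintype a] [AddCommGroup M] [Module R M] (A : Matrix a a R) (B : a → b → M) : a → b → M :=
  fun p q => ∑ s, A p s • B s q

/-- the product of a matrix over an `R`-module and a matrix over `R` -/
def rmul {a b M : Type} [Fintype b] [AddCommGroup M] [Module R M] (B : a → b → M) (D : Matrix b b R) : a → b → M :=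
  fun p q => ∑ s, D s q • B p s

variable {G : Type} [Group G] {a b : Type} [Fintype a] [Fintype b] [DecidableEq a] [DecidableEq b]

/-- `c` is a cocycle with values in `Hom(τ, ρ) ⊗ M`, written such that `(ρ c; 0 τ)` is a representation -/
def IsCocycle {M : Type} [AddCommGroup M] [Module R M] (τ : G →* Matrix b b R) (ρ : G →* Matrix a a R)
    (c : G → a → b → M) : Prop := ∀ g h, c (g * h) = lmul (ρ g) (c h) + rmul (c g) (τ h)

/-- `c` is a coboundary -/
def IsCoboundary {M : Type} [AddCommGroup M] [Module R M] (τ : G →* Matrix b b R) (ρ : G →* Matrix a a R)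
    (c : G → a → b → M) : Prop := ∃ x : a → b → M, ∀ g, c g = lmul (ρ g) x - rmul x (τ g)

/-- the action of `G` on `M^a × R^b` by the matrices `(ρ c; 0 τ)` -/
def extAct {M : Type} [AddCommGroup M] [Module R M] (τ : G →* Matrix b b R) (ρ : G →* Matrix a a R)
    (c : G → a → b → M) (g : G) (v : (a → M) × (b → R)) : (a → M) × (b → R) :=
  (fun p => ∑ s, ρ g p s • v.1 s + ∑ s, v.2 s • c g p s, τ g *ᵥ v.2)

end modules

/-! ### The jobs -/

/-- PHI. The algebra `A`, the `T`-span of the `r(g)`, and the homomorphism `Φ` to `∏ M_{d_i}(T/I)`.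

Proof. `A` is the `T`-span of the matrices `fam r g`; it is a subalgebra. Trace: `tr(∑ s_g r(g)) = ∑ s_g t(g)`, an element of
`T`. `A` is a finite `T`-module: for every `κ` choose finitely many `g` such that the `r κ g` span the matrix algebra
over `L κ`, and let `Γ` be the union; the map `A → T^Γ`, `x ↦ (tr(x r(g)))_g`, is `T`-linear and injective (the trace
form of a matrix algebra is nondegenerate), and `T` is Noetherian. `Φ(∑ s_g r(g)) = (∑ s_g ρ_i(g))_i`; well defined: if
`∑ s_g r(g) = 0` then `∑ s_g t(g h) = 0` for all `h` (by `inj`), so with `z_i = ∑ s_g ρ_i(g)` we have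
`∑_i tr(z_i ρ_i(h)) = 0` for all `h`, so `z = 0` by `span`. -/
def S_PHI : Prop := ∀ (T G K J : Type) (L : K → Type) [CommRing T] [IsNoetherianRing T] [Group G] [Fintype K]
  [∀ κ, Field (L κ)] [∀ κ, Algebra T (L κ)] [Fintype J] [DecidableEq J] (I : Ideal T) (d : J → ℕ)
  (ρ : ∀ i, G →* Matrix (Fin (d i)) (Fin (d i)) (T ⧸ I))
  (r : ∀ κ, G →* Matrix (Σ i, Fin (d i)) (Σ i, Fin (d i)) (L κ)) (t : G → T), Hyp I ρ r t →
  ∃ (A : Subalgebra T (Matrix (Σ i, Fin (d i)) (Σ i, Fin (d i)) (∀ κ, L κ)))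
    (Φ : A →ₐ[T] (∀ i, Matrix (Fin (d i)) (Fin (d i)) (T ⧸ I))), Module.Finite T A ∧
    (∀ g, ∃ h : fam r g ∈ A, Φ ⟨_, h⟩ = fun i => ρ i g) ∧
    (∀ x ∈ A, ∃ c : G →₀ T, (c.sum fun g s => s • fam r g) = x) ∧ Function.Surjective Φ ∧
    (∀ x : A, ∃ s : T, (x : Matrix (Σ i, Fin (d i)) (Σ i, Fin (d i)) (∀ κ, L κ)).trace =
      algebraMap T (∀ κ, L κ) s ∧ Ideal.Quotient.mk I s = ∑ i, (Φ x i).trace)

/-- NAK. Proof. Nakayama's lemma for the finite module `∏ M_{d_i}(R)` over the local ring `R`; the kernel of `π` is the maximal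
ideal. -/
def S_NAK : Prop := ∀ (R k G J : Type) [CommRing R] [IsLocalRing R] [Field k] (π : R →+* k) [Group G] [Fintype J]
  [DecidableEq J] (d : J → ℕ) (ρ : ∀ i, G →* Matrix (Fin (d i)) (Fin (d i)) R), Function.Surjective π →
  Submodule.span k (Set.range fun (g : G) i => (ρ i g).map π) = ⊤ →
  Submodule.span R (Set.range fun (g : G) i => ρ i g) = ⊤

/-- FIT. Fitting's lemma in a finite algebra over a complete local ring.

Proof. Let `B = A / 𝔪 A`, a finite dimensional algebra over the residue field `k`, and `\bar x ∈ B` the class of `x`. By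
Fitting's lemma in the commutative finite dimensional algebra `k[\bar x]` (write the minimal polynomial as `X^m f` with
`f(0) ≠ 0`, coprime factors) there is a polynomial `q` without constant term with `q(\bar x)` idempotent and
`\bar x (1 - q(\bar x))` nilpotent. Lift `q` to a polynomial over `T` without constant term: `e_0 = q(x)`, so
`e_0^2 - e_0 ∈ 𝔪 A`, and iterate `e ↦ 3 e^2 - 2 e^3`, which converges `𝔪`-adically (`A` is a finite module over the complete
Noetherian ring `T`) to an idempotent `e`, congruent to `e_0` modulo `𝔪 A`, which commutes with `x`. The iterates are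
`e_n = x y_n` with polynomials `y_n` in `x`, `y_(n+1) = y_n (3 e_n - 2 e_n^2)`; the sequence `e_n y_n` converges to some `y`, and
`x y = e = y x`. (Or: `x e` is invertible in `e A e`, because it is so modulo `𝔪`.) -/
def S_FIT : Prop := ∀ (T A : Type) [CommRing T] [IsLocalRing T] [IsNoetherianRing T]
  [IsAdicComplete (maximalIdeal T) T] [Ring A] [Algebra T A] [Module.Finite T A] (x : A),
  ∃ e y : A, e * e = e ∧ e = x * y ∧ e = y * x ∧ x * e = e * x ∧
    ∃ M : ℕ, (x * (1 - e)) ^ M ∈ (maximalIdeal T) • (⊤ : Submodule T A)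

/-- STAR. An idempotent in the kernel of `Φ` is zero.

Proof. Let `e` be an idempotent of `A` with `Φ(e) = 0`. Claim: for every `x` in `A` with `x = (1 - f) x (1 - f)`, `f`
an idempotent of `A`, and `Φ(x) = ε` idempotent, there is an idempotent `e' = (1 - f) e' (1 - f)` of `A` with `Φ(e') = ε`. Indeed
take `e'` from FIT for `x` (FIT gives `e' = x y = y x`, so `f e' = e' f = 0`): `Φ(e') = ε Φ(y) = Φ(y) ε`, so `Φ(e') ε = Φ(e') = ε Φ(e')`,
and `ε - Φ(e') = Φ(x (1 - e'))` is an idempotent with a power in the `𝔪`-multiples of the finite `T`-module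
`∏ M_{d_i}(T/I)`, hence zero by the Krull intersection theorem. So one finds step by step pairwise orthogonal idempotents
`e_x`, `x ∈ Σ i, Fin (d i)`, of `A`, orthogonal to `e`, with `Φ(e_x)` the standard diagonal idempotent (apply the claim with `f` the
sum of `e` and the idempotents found so far, and `(1 - f) z (1 - f)` for a preimage `z`; `Φ(f)` is orthogonal to the next
diagonal idempotent). The trace of `e_x` is the image of some `s ∈ T` with `s = 1` modulo `I`, so `s` is a unit, and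
`(e_x)_κ ≠ 0` for every `κ`. In the matrix algebra over the field `L κ` with `|Σ i, Fin (d i)|` rows we have this number of
nonzero pairwise orthogonal idempotents, orthogonal to `e_κ`, so `e_κ = 0` (ranks). -/
def S_STAR : Prop := ∀ (T K J : Type) (L : K → Type) [CommRing T] [IsLocalRing T] [IsNoetherianRing T]
  [IsAdicComplete (maximalIdeal T) T] [∀ κ, Field (L κ)] [∀ κ, Algebra T (L κ)] [Fintype J] [DecidableEq J]
  (I : Ideal T) (d : J → ℕ) (A : Subalgebra T (Matrix (Σ i, Fin (d i)) (Σ i, Fin (d i)) (∀ κ, L κ)))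
  (Φ : A →ₐ[T] (∀ i, Matrix (Fin (d i)) (Fin (d i)) (T ⧸ I))), Module.Finite T A → I ≠ ⊤ →
  Function.Surjective Φ →
  (∀ x : A, ∃ s : T, (x : Matrix (Σ i, Fin (d i)) (Σ i, Fin (d i)) (∀ κ, L κ)).trace =
      algebraMap T (∀ κ, L κ) s ∧ Ideal.Quotient.mk I s = ∑ i, (Φ x i).trace) →
  ∀ e : A, e * e = e → Φ e = 0 → e = 0

/-- GMA. Assembly of PHI, FIT, STAR and of `S_LIFT`, `S_STD` (proved in the project CD).

Proof. LIFT applies to `Φ`: let `Φ(x) = 0` and let `e` be as in FIT, then `Φ(e) = 0`, `e = 0` by STAR, and a power of `x` is in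
`𝔪 A`. The matrix units `E i a b ∈ A` have components `(E i a b)_κ`, matrices over `L κ`; the trace of `E i a a` is the image
of an element of `T` congruent to `1` modulo `I`, a unit, so they are not zero. STD over the field `L κ` gives `P κ`, `Q κ`. Let
`A' = P A Q`, `Φ'(P x Q) = Φ(x)`; `A'` contains the standard units `e_{(i,a),(i,b)}`, and `Φ'` of it is the unit `e_{ab}` at
`i`. Put `a i j = {t : t e_{xy} ∈ A'}`, `x` of type `i`, `y` of type `j`; it does not depend on the choice of `x`, `y`.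
`diag`: `t e_{xx} ∈ A'` has trace `t`. `ker`: `Φ'(t e_{xy}) = 0` if the types are different, because
`t e_{xy} = e_{xx} (t e_{xy}) e_{yy}`. `ne`: `r κ` spans the matrix algebra, so some entry `(x, y)` of `P κ * r κ g * Q κ` is not zero
and `e_{xx} R(g) e_{yy} = R(g)_{xy} e_{xy}`. `fg`: `a i j` embeds in `A'`, a finite module over the Noetherian ring `T`. -/
def S_GMA : Prop := ∀ (T G K J : Type) (L : K → Type) [CommRing T] [IsLocalRing T] [IsNoetherianRing T]
  [IsAdicComplete (maximalIdeal T) T] [Group G] [Fintype K] [∀ κ, Field (L κ)] [∀ κ, Algebra T (L κ)] [Fintype J]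
  [DecidableEq J] (I : Ideal T) (d : J → ℕ) (ρ : ∀ i, G →* Matrix (Fin (d i)) (Fin (d i)) (T ⧸ I))
  (r : ∀ κ, G →* Matrix (Σ i, Fin (d i)) (Σ i, Fin (d i)) (L κ)) (t : G → T), Hyp I ρ r t →
  ∃ (P Q : ∀ κ, Matrix (Σ i, Fin (d i)) (Σ i, Fin (d i)) (L κ)) (a : J → J → Submodule T (∀ κ, L κ))
    (R : G →* Matrix (Σ i, Fin (d i)) (Σ i, Fin (d i)) (∀ κ, L κ)), (∀ κ, P κ * Q κ = 1) ∧ (∀ κ, Q κ * P κ = 1) ∧
    (∀ g x y κ, R g x y κ = (P κ * r κ g * Q κ) x y) ∧ GMA I a ∧ GRep ρ R a

/-- FITT. The product of the Fitting ideals over a cut, from `S_PERM` (proved in the project CD).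

Proof. A product of ideals generated by sets is generated by the products, so take for every `(i, j)`, `i ∈ S`, `j ∉ S`, a
system `y` of `m` generators of `X = (a i j) / Rel i j` and an `m × m` matrix `C` of relations; we show that the product of
the determinants is in `I`. Lift `y` to `a i j`, and let `z` be finitely many generators of `a i j` (`fg`); each `z_p` is a
combination of the `y` plus an element `w_p ∈ Rel i j`. So the `y` and `w` together generate `a i j`, and the rows of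
`C' = diag(C, 1)` give combinations of them which are in `Rel i j`; `det C' = det C`. Let `Y` be the finite type of all
these generators, for all `(i, j)` in the cut, with the type map `Y → J × J`, `y_p ∈ a i j` the generators (`p` of type
`(i, j)`) and `C` the block diagonal matrix of the `C'`: `∑_q C_{p,q} y_q ∈ Rel i j`. Expand:
`Rel i j = ∑_{l ≠ i, j} (a i l)(a l j) + I (a i j)`, `(a i l)(a l j) = ∑_q y_{il,q} (a l j)` if `l ∉ S` and
`= ∑_q (a i l) y_{lj,q}` if `l ∈ S`. So there are `β_{p,q}`, `p` of type `(i, j)`, `q` of type `(i', j')`, zero unless `i = i'` or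
`j = j'`, in `a j' j` if `i = i'`, `j ≠ j'`, in `a i i'` if `j = j'`, `i ≠ i'`, in the image of `I` if both, with
`∑ C_{p,q} y_q = ∑ β_{p,q} y_q`. The matrix `D = C - β` over `∏ L κ` kills the vector `y`, and `y κ ≠ 0` for every `κ`
(`ne`), so `det D = 0`. `S_PERM` (for the image of `T` in `∏ L κ`, a subalgebra over `ℤ`, with `φ` the inverse map to `T` followed
by `T → T/I`, `b (i, j) (i', j') = (a i i') * (a j' j)`, the product of submodules of the `T`-algebra `∏ L κ`; one can take `O = T`, the subalgebra `⊥` and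
`Algebra.botEquivOfInjective`) says that
`φ(det D) = det C` modulo `I`; so `det C ∈ I`. Compare the proof of `S_LEN` in Pool/Agent/H499/CD/LEN.lean. -/
def S_FITT : Prop := ∀ (T K J : Type) (L : K → Type) [CommRing T] [Fintype K] [Nonempty K]
  [∀ κ, Field (L κ)] [∀ κ, Algebra T (L κ)] [Fintype J] [DecidableEq J] (I : Ideal T)
  (a : J → J → Submodule T (∀ κ, L κ)), (∀ x : T, (∀ κ, algebraMap T (L κ) x = 0) → x = 0) → GMA I a →
  ∀ S : Finset J, S.Nonempty → Sᶜ.Nonempty → ∏ i ∈ S, ∏ j ∈ Sᶜ, Fitt T (a i j ⧸ Rel I a i j) ≤ I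

/-- EXT. The universal cocycle with values in `X = (a i j) / Rel i j`, `i ≠ j`. Here the `T / I`-modules `M` are given as
`T`-modules with a compatible `T / I`-module structure.

Proof. Cocycle: apply the class map to
`R(g g')_{(i,p),(j,q)} = ∑ R(g)_{(i,p),(l,s)} R(g')_{(l,s),(j,q)}`: the terms with `l ≠ i, j` are in `Rel`, the others
give `ρ_i(g) c(g') + c(g) ρ_j(g')` (`R(g)_{(i,p),(i,s)}` is the image of an element of `T` by `GMA.diag`, and `GRep.diag`).
Universality: let `h ∘ c = ρ_i x - x ρ_j`, `y ∈ a i j`, and `∑ s_g R(g) = y e_{(i,p),(j,q)}` (`GRep.span`). Look at the entries: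
`∑ s_g ρ_i(g) = 0`, `∑ s_g ρ_j(g) = 0`, and `∑ s_g c(g) = [y] e_{pq}`; so `h([y]) = 0`. -/
def S_EXT : Prop := ∀ (T G K J : Type) (L : K → Type) [CommRing T] [Group G] [∀ κ, Field (L κ)]
  [∀ κ, Algebra T (L κ)] [Fintype J] [DecidableEq J] (I : Ideal T) (d : J → ℕ)
  (ρ : ∀ i, G →* Matrix (Fin (d i)) (Fin (d i)) (T ⧸ I))
  (R : G →* Matrix (Σ i, Fin (d i)) (Σ i, Fin (d i)) (∀ κ, L κ)) (a : J → J → Submodule T (∀ κ, L κ)),
  (∀ x : T, (∀ κ, algebraMap T (L κ) x = 0) → x = 0) → (∀ i, 0 < d i) → GMA I a → ∀ hR : GRep ρ R a, ∀ i j, i ≠ j →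
  ∀ (M : Type) [AddCommGroup M] [Module T M] [Module (T ⧸ I) M] [IsScalarTower T (T ⧸ I) M]
  (h : (a i j ⧸ Rel I a i j) →ₗ[T] M),
  IsCocycle (ρ j) (ρ i) (fun g p q => h (Submodule.Quotient.mk ⟨R g ⟨i, p⟩ ⟨j, q⟩, hR.mem g ⟨i, p⟩ ⟨j, q⟩⟩)) ∧
  (IsCoboundary (ρ j) (ρ i) (fun g p q => h (Submodule.Quotient.mk ⟨R g ⟨i, p⟩ ⟨j, q⟩, hR.mem g ⟨i, p⟩ ⟨j, q⟩⟩)) →
    h = 0)

/-- a class of `T`-modules `V` with an action `G → V → V`, closed under quotients and finite direct sums -/
structure Class (T G : Type) [CommRing T] where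
  mem : ∀ (V : Type) [AddCommGroup V] [Module T V], (G → V → V) → Prop
  quot : ∀ (V W : Type) [AddCommGroup V] [Module T V] [AddCommGroup W] [Module T W] (π : G → V → V)
    (π' : G → W → W) (f : V →ₗ[T] W), (∀ g v, f (π g v) = π' g (f v)) → Function.Surjective f →
    mem V π → mem W π'
  sum : ∀ (ι : Type) [Fintype ι] (V : ι → Type) [∀ i, AddCommGroup (V i)] [∀ i, Module T (V i)]
    (π : ∀ i, G → V i → V i), (∀ i, mem (V i) (π i)) → mem (∀ i, V i) fun g v i => π i g (v i)

/-- MEM. The extensions given by the cocycles `h ∘ c`, `h : X → M`, `M` finitely generated, are quotients of finite sums of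
stable lattices.

Proof. For `j` let `N j` be the submodule of `Σ i, Fin (d i) → ∏ L κ` of the `v` with `v x ∈ a x.1 j`; it is finitely
generated (`GMA.fg`) and stable under `R`, and `v ↦ (Q κ (v κ))_κ` maps it onto a finitely generated submodule stable under
`fam r` (`r κ g * Q κ = Q κ * (P κ * r κ g * Q κ)`). So `N j` with the action of `R` is in the class. Let `m_1, …, m_n` generate
`M`. The map `f(v, w_1, …, w_n) = ((h[v_{(i,p)}] + ∑_s φ(w_{s,(i,p)}) m_s)_p, (φ(v_{(j,q)}))_q)` from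
`N j × (N i)^n` to `M^(d i) × (T/I)^(d j)` (`φ` takes the image of `s ∈ T` to the class of `s` in `T / I`) is linear, surjective and
equivariant: in `h[(R(g) v)_{(i,p)}] = ∑ h[R(g)_{(i,p),(l,s)} v_{(l,s)}]` the terms with `l ≠ i, j` vanish, those with `l = i`
give `ρ_i(g) h[v_i]`, those with `l = j` give `φ(v_j) c(g)`; in `φ((R(g) v)_{(j,q)})` the terms with `l ≠ j` vanish by
`GMA.ker`. Use `Class.sum` for a finite index type such as `Option (Fin n)` and `Class.quot`. Compare the proof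
of `S_MEM` in Pool/Agent/H499/CD/MEM.lean. -/
def S_MEM : Prop := ∀ (T G K J : Type) (L : K → Type) [CommRing T] [Group G] [Fintype K] [∀ κ, Field (L κ)]
  [∀ κ, Algebra T (L κ)] [Fintype J] [DecidableEq J] (I : Ideal T) (d : J → ℕ)
  (ρ : ∀ i, G →* Matrix (Fin (d i)) (Fin (d i)) (T ⧸ I))
  (r : ∀ κ, G →* Matrix (Σ i, Fin (d i)) (Σ i, Fin (d i)) (L κ))
  (P Q : ∀ κ, Matrix (Σ i, Fin (d i)) (Σ i, Fin (d i)) (L κ))
  (R : G →* Matrix (Σ i, Fin (d i)) (Σ i, Fin (d i)) (∀ κ, L κ)) (a : J → J → Submodule T (∀ κ, L κ)),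
  (∀ x : T, (∀ κ, algebraMap T (L κ) x = 0) → x = 0) → (∀ κ, P κ * Q κ = 1) → (∀ κ, Q κ * P κ = 1) →
  (∀ g x y κ, R g x y κ = (P κ * r κ g * Q κ) x y) → GMA I a → ∀ hR : GRep ρ R a, ∀ Pc : Class T G,
  (∀ (N : Submodule T ((Σ i, Fin (d i)) → ∀ κ, L κ)) (hs : ∀ g, ∀ v ∈ N, fam r g *ᵥ v ∈ N), N.FG →
    Pc.mem N (fun g v => ⟨fam r g *ᵥ (v : (Σ i, Fin (d i)) → ∀ κ, L κ), hs g v v.2⟩)) → ∀ i j, i ≠ j →
  ∀ (M : Type) [AddCommGroup M] [Module T M] [Module (T ⧸ I) M] [IsScalarTower T (T ⧸ I) M] [Module.Finite T M]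
  (h : (a i j ⧸ Rel I a i j) →ₗ[T] M),
  Pc.mem ((Fin (d i) → M) × (Fin (d j) → T ⧸ I)) (extAct (ρ j) (ρ i)
    (fun g p q => h (Submodule.Quotient.mk ⟨R g ⟨i, p⟩ ⟨j, q⟩, hR.mem g ⟨i, p⟩ ⟨j, q⟩⟩)))

/-- the length of the localisation at `𝔭` -/
noncomputable def lenAt {Λ : Type} [CommRing Λ] (𝔭 : Ideal Λ) [𝔭.IsPrime] (X : Type) [AddCommGroup X] [Module Λ X] :
    ℕ∞ := Module.length (Localization.AtPrime 𝔭) (LocalizedModule 𝔭.primeCompl X)

/-- LOC. From Fitting ideals to lengths at primes with a discrete valuation ring as local ring.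

Proof. Let `S = Λ_𝔭`, `ϖ` a uniformiser, so the localisation of `R` is `S / 𝔞`, `𝔞 = 0` or `𝔞 = (ϖ ^ n)`. If some `X p` has
infinite length at `𝔭` there is nothing to prove. Otherwise let `ℓ_p` be the length of the localisation of `X p`, take
`m` generators `y` of `X p` over `Λ`; the kernel of `S^m → (X p)_𝔭` is free of rank `m` (torsion module over a principal ideal
domain), a basis gives an `m × m` matrix `C'` over `S` with determinant a unit times `ϖ ^ ℓ_p`. Clearing denominators in each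
row gives a matrix `C` over `Λ` of relations between the `y` in `X p`, whose determinant maps to a unit times `ϖ ^ ℓ_p` in `S`, and
`det C` (in `R`) is in `Fitt R (X p)`. So the product of these determinants is `0` in `R`, and `ϖ ^ (∑ ℓ_p) ∈ 𝔞`. -/
def S_LOC : Prop := ∀ (Λ R ι : Type) [CommRing Λ] [CommRing R] [Algebra Λ R] [Fintype ι] (𝔭 : Ideal Λ) [𝔭.IsPrime]
  [IsDomain (Localization.AtPrime 𝔭)] [IsDiscreteValuationRing (Localization.AtPrime 𝔭)] (X : ι → Type)
  [∀ p, AddCommGroup (X p)] [∀ p, Module Λ (X p)] [∀ p, Module R (X p)] [∀ p, IsScalarTower Λ R (X p)]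
  [∀ p, Module.Finite R (X p)], Function.Surjective (algebraMap Λ R) → ∏ p, Fitt R (X p) = ⊥ →
  lenAt 𝔭 R ≤ ∑ p, lenAt 𝔭 (X p)

end Pool.Agent.H499.CF
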